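import Pool.Agent.Lib.SmL.J.Inst

/-!
SMITH-L (MP_48b749_nt), block J: numerical estimates. Port of `Lib/SmN/J/Num.lean`.
-/

set_option autoImplicit false

open Module Finset

namespace Pool.Agent.SmL.J

theorem log_large (s : ℝ) : ∃ n₀ : ℕ, ∀ n ≥ n₀, s ≤ Real.log n := by
  refine ⟨⌈Real.exp s⌉₊, fun n hn => ?_⟩
  have h1 : Real.exp s ≤ n := (Nat.le_ceil _).trans (by exact_mod_cast hn)
  exact (Real.le_log_iff_exp_le ((Real.exp_pos s).trans_le h1)).2 h1

theorem big {q : ℕ} (hq : 2 ≤ q) (A B : ℝ) : ∃ n₀ : ℕ, ∀ n ≥ n₀, ∀ d, N0 n ≤ d →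
    A * Real.exp (B * Real.log n) ≤ √((q : ℝ) ^ d) := by
  set A' : ℝ := max A 1 with hA'
  set B' : ℝ := max B 0 with hB'
  have hA1 : 1 ≤ A' := le_max_right _ _
  have hB0 : 0 ≤ B' := le_max_right _ _
  have hlA : 0 ≤ Real.log A' := Real.log_nonneg hA1
  set c : ℝ := Real.log 2 / 2 with hc
  have hc0 : 0 < c := by
    have := Real.log_pos (show (1 : ℝ) < 2 by norm_num)
    rw [hc]
    linarith
  obtain ⟨n₀, hn₀⟩ := log_large (max 1 ((B' + Real.log A' + c) / c))
  refine ⟨n₀, fun n hn d hd => ?_⟩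
  set L := Real.log n with hL
  have hL1 : 1 ≤ L := (le_max_left _ _).trans (hn₀ n hn)
  have hL2 : B' + Real.log A' + c ≤ c * L := by
    have := (le_max_right _ _).trans (hn₀ n hn)
    rw [div_le_iff₀ hc0] at this
    linarith
  have hd1 : L ^ 3 - 1 ≤ d := by
    have h1 : L ^ 3 < ⌊L ^ 3⌋₊ + 1 := Nat.lt_floor_add_one _
    have h2 : ((⌊L ^ 3⌋₊ : ℕ) : ℝ) ≤ d := by exact_mod_cast hd
    linarith
  have h1 : Real.log A' + B' * L ≤ c * d := by
    have h2 : B' * L + Real.log A' + c ≤ (B' + Real.log A' + c) * L ^ 2 := by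
      have h3 : L ≤ L ^ 2 := by nlinarith
      have h4 : (1 : ℝ) ≤ L ^ 2 := by nlinarith
      nlinarith
    have h5 : (B' + Real.log A' + c) * L ^ 2 ≤ c * L ^ 3 := by
      have h6 : 0 ≤ L ^ 2 := by positivity
      calc (B' + Real.log A' + c) * L ^ 2 ≤ (c * L) * L ^ 2 := mul_le_mul_of_nonneg_right hL2 h6
        _ = _ := by ring
    have h7 : c * (L ^ 3 - 1) ≤ c * d := mul_le_mul_of_nonneg_left hd1 hc0.le
    linarith
  have h8 : A * Real.exp (B * L) ≤ Real.exp (Real.log A' + B' * L) := by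
    rw [Real.exp_add, Real.exp_log (by linarith)]
    refine mul_le_mul (le_max_left _ _) (Real.exp_le_exp.2 ?_) (Real.exp_pos _).le (by linarith)
    exact mul_le_mul_of_nonneg_right (le_max_left _ _) (by linarith)
  have h9 : Real.exp (c * d) ≤ √((q : ℝ) ^ d) := by
    refine Real.le_sqrt_of_sq_le ?_
    rw [← Real.exp_nat_mul]
    have h10 : ((2 : ℕ) : ℝ) * (c * d) = d * Real.log 2 := by
      rw [hc]
      push_cast
      ring
    rw [h10, Real.exp_nat_mul, Real.exp_log (by norm_num)]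
    exact pow_le_pow_left₀ (by norm_num) (by exact_mod_cast hq) _
  exact h8.trans ((Real.exp_le_exp.2 h1).trans h9)

theorem pnt_low {X : PSys} {q : ℕ} (hX : X.Ok q) : ∃ n₀ : ℕ, ∀ n ≥ n₀, ∀ d, N0 n ≤ d → 1 ≤ d →
    (q : ℝ) ^ d / (2 * d) ≤ Nat.card (X.Of d) := by
  obtain ⟨C, hC⟩ := hX.pnt
  obtain ⟨n₀, hn₀⟩ := big hX.two_le (2 * C) 0
  refine ⟨n₀, fun n hn d hd hd1 => ?_⟩
  have h1 := hn₀ n hn d hd
  rw [zero_mul, Real.exp_zero, mul_one] at h1
  have h2 := (abs_le.1 (hC d hd1)).1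
  have hs : √((q : ℝ) ^ d) * √((q : ℝ) ^ d) = (q : ℝ) ^ d := Real.mul_self_sqrt (by positivity)
  have h3 : 2 * C * √((q : ℝ) ^ d) ≤ (q : ℝ) ^ d :=
    (mul_le_mul_of_nonneg_right h1 (Real.sqrt_nonneg _)).trans (le_of_eq hs)
  have hd0 : (0 : ℝ) < d := by exact_mod_cast hd1
  rw [div_le_iff₀ (by positivity)]
  nlinarith

variable {l : ℕ} [Fact l.Prime] {A G V V1 Pl : Type} [CommRing A] [Group G] [AddCommGroup V]
  [Module A V] [DistribMulAction G V] [AddCommGroup V1] [Module (ZMod l) V1]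
  {S : Sys l A G V V1 Pl} {X : PSys}

theorem num_Sm (cd : CData S X) [Finite V1] {q a C : ℕ} (hX : X.Ok q) (N1 : Subgroup G)
    (hI : N1.index ≠ 0) : ∃ n₀ : ℕ, ∀ n ≥ n₀, ∀ j d : ℕ,
    (j : ℝ) ≤ 2 * l * Real.log n → N0 n ≤ d → 1 ≤ d → d ≤ n →
    Nat.card cd.Kf * er cd q a C N1 n j d ≤ 1 / n * (cd.R.card * Nat.card (X.Of d)) ∧
    cd.R.card * (C * (N1.index : ℝ) ^ a * √((q : ℝ) ^ d)) ≤
      Nat.card (X.Of d) / (2 * N1.index) := by
  have hv : 1 ≤ Nat.card V1 := Nat.card_pos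
  have hl0 : 0 < l := (Fact.out : l.Prime).pos
  set K2 : ℝ := (((l ^ Nat.card V1) ^ Nat.card V1 * l : ℕ) : ℝ) with hK2
  set K0 : ℝ := ((Nat.card V1 ^ Nat.card V1 * l : ℕ) : ℝ) with hK0
  have hK21 : 1 ≤ K2 := by
    rw [hK2]
    exact_mod_cast Nat.succ_le_of_lt (by positivity)
  have hK01 : 1 ≤ K0 := by
    rw [hK0]
    exact_mod_cast Nat.succ_le_of_lt (by positivity)
  set I2 : ℝ := ((N1 ⊓ S.GN).index : ℝ) with hI2
  have hI20 : 0 ≤ I2 := Nat.cast_nonneg _
  set k2 := Real.log K2 with hk2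
  set k0 := Real.log K0 with hk0
  have hk20 : 0 ≤ k2 := Real.log_nonneg hK21
  have hk00 : 0 ≤ k0 := Real.log_nonneg hK01
  obtain ⟨n1, hn1⟩ := big hX.two_le (Nat.card cd.Kf * 2 * C * (2 * I2) ^ a * 2)
    (2 * l * k2 + a * (2 * l * k0 + 1) + 2)
  obtain ⟨n2, hn2⟩ := big hX.two_le (cd.R.card * (C * (N1.index : ℝ) ^ a) * (2 * N1.index) * 2) 1
  obtain ⟨n3, hn3⟩ := pnt_low hX
  refine ⟨max (max n1 n2) (max n3 1), fun n hn j d hj hd hd1 hdn => ?_⟩
  have e1 : n1 ≤ n := le_trans (le_trans (le_max_left _ _) (le_max_left _ _)) hn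
  have e2 : n2 ≤ n := le_trans (le_trans (le_max_right _ _) (le_max_left _ _)) hn
  have e3 : n3 ≤ n := le_trans (le_trans (le_max_left _ _) (le_max_right _ _)) hn
  have e4 : 1 ≤ n := le_trans (le_trans (le_max_right _ _) (le_max_right _ _)) hn
  have h1 := hn1 n e1 d hd
  have h2 := hn2 n e2 d hd
  have h3 := hn3 n e3 d hd hd1
  set L := Real.log n with hL
  have hn0 : (0 : ℝ) < n := by exact_mod_cast e4
  have hn1' : (1 : ℝ) ≤ n := by exact_mod_cast e4
  have hL0 : 0 ≤ L := Real.log_nonneg hn1'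
  have hexpL : Real.exp L = n := Real.exp_log hn0
  set sq := √((q : ℝ) ^ d) with hsq
  have hsq0 : 0 ≤ sq := Real.sqrt_nonneg _
  have hss : sq * sq = (q : ℝ) ^ d := Real.mul_self_sqrt (by positivity)
  have hd0 : (0 : ℝ) < d := by exact_mod_cast hd1
  have hdn' : (d : ℝ) ≤ n := by exact_mod_cast hdn
  -- lower bound for the number of primes
  have hOf : sq * sq / (2 * n) ≤ Nat.card (X.Of d) := by
    refine le_trans ?_ h3
    rw [hss]
    exact div_le_div_of_nonneg_left (by positivity) (by positivity) (by linarith)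
  have hKj : ∀ (K : ℝ), 1 ≤ K → K ^ j ≤ Real.exp (2 * l * Real.log K * L) := by
    intro K hK
    have h4 : K ^ j = Real.exp (j * Real.log K) := by
      rw [Real.exp_nat_mul, Real.exp_log (by linarith)]
    rw [h4]
    refine Real.exp_le_exp.2 ?_
    have := Real.log_nonneg hK
    nlinarith
  refine ⟨?_, ?_⟩
  · have h5 : (1 + K2 ^ j) ≤ 2 * Real.exp (2 * l * k2 * L) := by
      have h6 := hKj K2 hK21
      have h7 : (1 : ℝ) ≤ Real.exp (2 * l * k2 * L) := Real.one_le_exp (by positivity)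
      linarith
    have h8 : ((((Nat.card V1 ^ Nat.card V1 * l) ^ j * (N1 ⊓ S.GN).index : ℕ) : ℝ) *
        (n + 1)) ^ a ≤ (2 * I2) ^ a * Real.exp (a * (2 * l * k0 + 1) * L) := by
      have h9 : (((Nat.card V1 ^ Nat.card V1 * l) ^ j * (N1 ⊓ S.GN).index : ℕ) : ℝ) =
          K0 ^ j * I2 := by
        rw [hK0, hI2]
        push_cast
        ring
      rw [h9]
      have h10 : K0 ^ j * I2 * (n + 1) ≤ 2 * I2 * Real.exp ((2 * l * k0 + 1) * L) := by
        have h11 := hKj K0 hK01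
        have h12 : Real.exp ((2 * l * k0 + 1) * L) = Real.exp (2 * l * k0 * L) * n := by
          rw [add_mul, Real.exp_add, one_mul, hexpL]
        rw [h12]
        have h13 : (n : ℝ) + 1 ≤ 2 * n := by linarith
        calc K0 ^ j * I2 * (n + 1) ≤ Real.exp (2 * l * k0 * L) * I2 * (2 * n) := by
              refine mul_le_mul (mul_le_mul_of_nonneg_right h11 hI20) h13 (by positivity)
                (by positivity)
          _ = _ := by ring
      calc (K0 ^ j * I2 * (n + 1)) ^ a ≤ (2 * I2 * Real.exp ((2 * l * k0 + 1) * L)) ^ a :=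
            pow_le_pow_left₀ (by positivity) h10 _
        _ = _ := by
            rw [mul_pow, ← Real.exp_nat_mul]
            congr 2
            ring
    have h14 : er cd q a C N1 n j d ≤ (2 * Real.exp (2 * l * k2 * L)) *
        (cd.R.card * (C * ((2 * I2) ^ a * Real.exp (a * (2 * l * k0 + 1) * L)) * sq)) := by
      unfold er
      refine mul_le_mul h5 (mul_le_mul_of_nonneg_left (mul_le_mul_of_nonneg_right
        (mul_le_mul_of_nonneg_left h8 (Nat.cast_nonneg _)) hsq0) (Nat.cast_nonneg _))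
        (by positivity) (by positivity)
    have h15 : Real.exp ((2 * l * k2 + a * (2 * l * k0 + 1) + 2) * L) =
        Real.exp (2 * l * k2 * L) * Real.exp (a * (2 * l * k0 + 1) * L) * (n * n) := by
      rw [add_mul, add_mul, Real.exp_add, Real.exp_add]
      congr 1
      rw [two_mul, Real.exp_add, hexpL]
    rw [h15] at h1
    have hKf : (0 : ℝ) ≤ Nat.card cd.Kf := Nat.cast_nonneg _
    have hR : (0 : ℝ) ≤ cd.R.card := Nat.cast_nonneg _
    calc Nat.card cd.Kf * er cd q a C N1 n j d ≤ Nat.card cd.Kf * ((2 * Real.exp (2 * l * k2 * L)) *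
          (cd.R.card * (C * ((2 * I2) ^ a * Real.exp (a * (2 * l * k0 + 1) * L)) * sq))) :=
          mul_le_mul_of_nonneg_left h14 hKf
      _ = cd.R.card * (sq * (Nat.card cd.Kf * 2 * C * (2 * I2) ^ a * 2 *
          (Real.exp (2 * l * k2 * L) * Real.exp (a * (2 * l * k0 + 1) * L) * (n * n)))) /
            (2 * (n * n)) := by
          field_simp
      _ ≤ cd.R.card * (sq * sq) / (2 * (n * n)) := by
          refine div_le_div_of_nonneg_right (mul_le_mul_of_nonneg_left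
            (mul_le_mul_of_nonneg_left h1 hsq0) hR) (by positivity)
      _ = 1 / n * (cd.R.card * (sq * sq / (2 * n))) := by
          field_simp
      _ ≤ _ := mul_le_mul_of_nonneg_left (mul_le_mul_of_nonneg_left hOf hR) (by positivity)
  · rw [one_mul, hexpL] at h2
    have hI' : (0 : ℝ) < N1.index := by exact_mod_cast Nat.pos_of_ne_zero hI
    have hR : (0 : ℝ) ≤ cd.R.card := Nat.cast_nonneg _
    calc cd.R.card * (C * (N1.index : ℝ) ^ a * sq) =
          (cd.R.card * (C * (N1.index : ℝ) ^ a) * (2 * N1.index) * 2 * n) * sq / (2 * n) /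
            (2 * N1.index) := by
          field_simp
      _ ≤ sq * sq / (2 * n) / (2 * N1.index) := by
          refine div_le_div_of_nonneg_right (div_le_div_of_nonneg_right
            (mul_le_mul_of_nonneg_right h2 hsq0) (by positivity)) (by positivity)
      _ ≤ _ := div_le_div_of_nonneg_right hOf (by positivity)

end Pool.Agent.SmL.J
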