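import Pool.Agent.Lib.SmL.J.Gr
import Pool.Agent.Lib.SmL.J.Num
import Pool.Agent.Lib.SmL.J.Est

/-!
SMITH-L (odd prime `l`), block J: **JThm**.
-/

set_option autoImplicit false

open Module Finset

namespace Pool.Agent.SmL.J

variable {l : ℕ} {A G V V1 Pl : Type} [CommRing A] [Group G] [AddCommGroup V]
  [Module A V] [DistribMulAction G V] [AddCommGroup V1] [Module (ZMod l) V1]
  {S : Sys l A G V V1 Pl} {X : PSys} {cd : CData S X}

/-- `A exp(- b log n) ≤ ε`. -/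
theorem small_exp (A b ε : ℝ) (hb : 0 < b) (hε : 0 < ε) : ∃ n₀ : ℕ, ∀ n ≥ n₀,
    A * Real.exp (-(b * Real.log n)) ≤ ε := by
  obtain ⟨n₀, hn₀⟩ := log_large (Real.log (max A 1 / ε) / b)
  refine ⟨n₀, fun n hn => ?_⟩
  have h1 := hn₀ n hn
  rw [div_le_iff₀ hb] at h1
  have hA : 0 < max A 1 := lt_of_lt_of_le one_pos (le_max_right _ _)
  have h2 : max A 1 / ε ≤ Real.exp (b * Real.log n) := by
    rw [← Real.log_le_iff_le_exp (by positivity)]
    linarith
  rw [Real.exp_neg]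
  have h3 : 0 < Real.exp (b * Real.log n) := Real.exp_pos _
  calc A * (Real.exp (b * Real.log n))⁻¹ ≤ max A 1 * (Real.exp (b * Real.log n))⁻¹ :=
        mul_le_mul_of_nonneg_right (le_max_left _ _) (by positivity)
    _ ≤ ε := by
        rw [← div_eq_mul_inv, div_le_iff₀ h3]
        rw [div_le_iff₀ hε] at h2
        linarith

/-- **Block J.** -/
theorem jThm [Nontrivial V1] {Geo : Subgroup G} {fr : G} {q a C : ℕ} (hS : S.Ok) (hX : X.Ok q)
    (hc : cd.Ok) (hG : CData.GeoOk (S := S) Geo fr) (hC : cd.Cheb Geo fr q a C) (m0 : ℕ)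
    (hm0 : fr ^ m0 ∈ S.GN) (c0 : ℝ) (hc0 : 0 < c0) (r0 : {g : G // g ∈ cd.R}) :
    cd.JThm m0 c0 r0 := by
  classical
  have hlp : Fact l.Prime := ⟨hS.prime⟩
  have hl2p : 2 ≤ l := hS.prime.two_le
  have hl2r : (2 : ℝ) ≤ l := by exact_mod_cast hl2p
  obtain ⟨N1, hN1, hN1i, hsg, hk⟩ := hc.kf_tf
  have H : Hyp cd Geo fr q a C N1 := ⟨hS, hX, hc, hG, hC, hN1, hN1i, hsg, hk⟩
  have hfin1 := hS.fin1
  have hKf := hc.kf_fin
  have : Fintype cd.Kf := Fintype.ofFinite _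
  have : Inhabited cd.Kf := ⟨cd.kf 1⟩
  intro ε hε
  -- constants
  set v : ℝ := (Nat.card V1 : ℝ) with hv
  have hv2 : 2 ≤ Nat.card V1 := Finite.one_lt_card
  have hv2' : (2 : ℝ) ≤ v := by
    rw [hv]
    exact_mod_cast hv2
  set Z : ℝ := (Nat.card (Fin cd.h → ZMod l) : ℝ) with hZ
  have hZ0 : 1 ≤ Z := by
    rw [hZ]
    exact_mod_cast Nat.card_pos
  set κ : ℝ := 1 / (2 * (cd.R.card * N1.index)) with hκ
  have hR1 : (1 : ℝ) ≤ cd.R.card := by exact_mod_cast Finset.card_pos.2 (R_nonempty hc)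
  have hI1 : (1 : ℝ) ≤ N1.index := by exact_mod_cast Nat.pos_of_ne_zero hN1i
  have hκ0 : 0 < κ := by positivity
  have hκ1 : κ ≤ 1 := by
    rw [hκ, div_le_one (by positivity)]
    nlinarith
  -- the choice of R
  set kb : ℝ := (Nat.card (Kb cd) : ℝ) with hkb
  obtain ⟨R, hR⟩ : ∃ R : ℕ, 6 * l * Z * v / ε + kb + 1 ≤ 2 ^ R := by
    obtain ⟨R, hR⟩ := pow_unbounded_of_one_lt (6 * l * Z * v / ε + kb + 1) (one_lt_two (α := ℝ))
    exact ⟨R, hR.le⟩
  have hkb0 : 0 ≤ kb := Nat.cast_nonneg _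
  have hRK : kb < 2 ^ R := by
    have : 0 ≤ 6 * l * Z * v / ε := by positivity
    linarith
  -- the rates
  set θ : ℝ := 1 - κ / (4 * v ^ R) with hθ
  have hvR : (1 : ℝ) ≤ v ^ R := one_le_pow₀ (by linarith)
  have hx0 : 0 < κ / (4 * v ^ R) := by positivity
  have hx1 : κ / (4 * v ^ R) ≤ 1 / 4 := by
    rw [div_le_div_iff₀ (by positivity) (by norm_num)]
    nlinarith
  have hθ0 : 0 < θ := by rw [hθ]; linarith
  have hθ1 : θ < 1 := by rw [hθ]; linarith
  set lθ : ℝ := -Real.log θ with hlθ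
  have hlθ0 : 0 < lθ := by
    rw [hlθ]
    linarith [Real.log_neg hθ0 hθ1]
  set θ1 : ℝ := 1 - κ / 4 with hθ1d
  have hθ10 : 0 < θ1 := by rw [hθ1d]; linarith
  have hθ11 : θ1 < 1 := by rw [hθ1d]; linarith
  set l1 : ℝ := -Real.log θ1 with hl1
  have hl10 : 0 < l1 := by
    rw [hl1]
    linarith [Real.log_neg hθ10 hθ11]
  have hlv : 0 < Real.log v := Real.log_pos (by linarith)
  have hl2 : 0 < Real.log 2 := Real.log_pos (by norm_num)
  set ρ : ℝ := c0 * lθ / (4 * l * Real.log 2) with hρ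
  have hρ0 : 0 < ρ := by positivity
  set δ : ℝ := c0 * l1 / (2 * Real.log v) with hδ
  have hδ0 : 0 < δ := by positivity
  -- the constant of the third term
  set C3 : ℝ := (l : ℝ) ^ (R * R) * Z ^ R * v ^ (R * R) * v ^ R with hC3
  have hC30 : 0 ≤ C3 := by positivity
  refine ⟨R, ρ, δ, hρ0, hδ0, ?_⟩
  obtain ⟨n1, hn1⟩ := small_exp (Z * 2) (c0 * l1 / 2) (ε / 3) (by positivity) (by positivity)
  obtain ⟨n2, hn2⟩ := small_exp ((R + 1) * (C3 * (2 * 2))) (c0 * lθ / 2) (ε / 3) (by positivity)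
    (by positivity)
  obtain ⟨n3, hn3⟩ := num_Sm (q := q) (a := a) (C := C) cd hX N1 hN1i
  obtain ⟨n4, hn4⟩ := log_large (8 * l)
  obtain ⟨n5, hn5⟩ := exists_nat_ge (4 * v ^ R / κ)
  refine ⟨max (max (max n1 n2) (max n3 n4)) (max n5 1), fun n hn Ds T hGr ex hex => ?_⟩
  have e1 : n1 ≤ n := le_trans (le_trans (le_trans (le_max_left _ _) (le_max_left _ _))
    (le_max_left _ _)) hn
  have e2 : n2 ≤ n := le_trans (le_trans (le_trans (le_max_right _ _) (le_max_left _ _))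
    (le_max_left _ _)) hn
  have e3 : n3 ≤ n := le_trans (le_trans (le_trans (le_max_left _ _) (le_max_right _ _))
    (le_max_left _ _)) hn
  have e4 : n4 ≤ n := le_trans (le_trans (le_trans (le_max_right _ _) (le_max_right _ _))
    (le_max_left _ _)) hn
  have e5 : n5 ≤ n := le_trans (le_trans (le_max_left _ _) (le_max_right _ _)) hn
  have e6 : 1 ≤ n := le_trans (le_trans (le_max_right _ _) (le_max_right _ _)) hn
  set L := Real.log n with hL
  have hL8 : 8 * l ≤ L := hn4 n e4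
  have hL6 : 6 ≤ L := by linarith
  have hn0 : (0 : ℝ) < n := by exact_mod_cast e6
  have hexpL : Real.exp L = n := Real.exp_log hn0
  have h4L : 4 * l * L ≤ n := by
    have := Real.quadratic_le_exp_of_nonneg (show 0 ≤ L by linarith)
    rw [hexpL] at this
    nlinarith
  set η : ℝ := 1 / n with hη
  have hη0 : 0 ≤ η := by positivity
  have hηκ : η ≤ κ / (4 * v ^ R) := by
    have h1 : 4 * v ^ R / κ ≤ n := hn5.trans (by exact_mod_cast e5)
    rw [hη, div_le_div_iff₀ hn0 (by positivity)]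
    rw [div_le_iff₀ hκ0] at h1
    linarith
  have hηκ' : η ≤ κ / 4 := by
    refine hηκ.trans ?_
    exact div_le_div_of_nonneg_left hκ0.le (by norm_num) (by linarith)
  -- the grid
  have hN0pos : 1 ≤ N0 n := by
    rw [N0]
    refine Nat.le_floor ?_
    rw [Nat.cast_one]
    exact one_le_pow₀ (show (1 : ℝ) ≤ L by linarith)
  have hDT : ∀ P ∈ Ds, ∀ t ∈ T, X.deg P ≠ t := by
    intro P hP t ht
    have h1 := hGr.sml P hP
    have h2 := hGr.large t ht
    omega
  have hT1 : ∀ t ∈ T, 1 ≤ t := fun t ht => hN0pos.trans (hGr.large t ht)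
  set g := grd cd r0 Ds T n hDT hT1 hGr.deg.le with hg
  have hgns : g.ns = Ds.card := rfl
  have hgM : g.M = Ds.card + T.card := rfl
  have hddT : ∀ j, g.ns ≤ j → j < g.M → g.dd j ∈ T := by
    intro j hj hjM
    have hjM' : j < Ds.card + T.card := hjM
    change (if h : j < Ds.card + T.card then DJ (sg Ds T ⟨j, h⟩) else 0) ∈ T
    rw [dif_pos hjM']
    obtain ⟨t, ht⟩ := sg_large Ds T ⟨j, hjM'⟩ hj
    rw [ht]
    exact t.2
  have hM2L : (g.M : ℝ) ≤ 2 * l * L := by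
    rw [hgM]
    exact hGr.few
  have hsm : Sm cd q a C N1 g η := by
    intro j hj hjM
    have h1 := hddT j hj hjM
    have h2 : g.dd j ≤ n := by
      have h3 : g.dd j ≤ ∑ t ∈ T, t := Finset.single_le_sum (f := fun t => t)
        (fun _ _ => Nat.zero_le _) h1
      have h4 := hGr.deg
      omega
    refine hn3 n e3 j (g.dd j) ?_ (hGr.large _ h1) (hT1 _ h1) h2
    have h5 : (j : ℝ) ≤ g.M := by exact_mod_cast hjM.le
    linarith
  have hGW := gw H g (uJ ex) hη0 hsm hm0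
  -- the number k
  set k : ℕ := ⌈ρ * (2 * l * L)⌉₊ with hkd
  have hk1 : ρ * ((Ds.card + T.card : ℕ) : ℝ) ≤ k := by
    refine le_trans ?_ (Nat.le_ceil _)
    exact mul_le_mul_of_nonneg_left hGr.few hρ0.le
  have hk2 : (k : ℝ) ≤ ρ * (2 * l * L) + 1 := (Nat.ceil_lt_add_one (by positivity)).le
  have h1 := card_notTypN H r0 Ds T n hDT hT1 hGr.deg.le (m0 := m0) (R := R) (N0 := N0 n) hk1
    hGr.large ex hex
  have h2 := hGW.card_notTyp hv2 R k hRK
  have h3 := pts_grd H r0 Ds T n hDT hT1 hGr.deg.le (uJ ex)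
  rw [← hg] at h3
  refine (Nat.cast_le.2 h1).trans (h2.trans ?_)
  rw [← h3]
  have hpts : 0 ≤ (gd H g (uJ ex)).pts := GD.pts_nonneg
  generalize (gd H g (uJ ex)).pts = pts at hpts
  -- the first factor
  have hMe : (1 + η) ^ (gd H g (uJ ex)).M ≤ 2 := by
    have h4 : (1 + η) ^ g.M ≤ Real.exp (g.M * η) := by
      rw [Real.exp_nat_mul]
      refine pow_le_pow_left₀ (by positivity) ?_ _
      linarith [Real.add_one_le_exp η]
    have h5 : g.M * η ≤ 1 / 2 := by
      rw [hη, mul_one_div, div_le_iff₀ hn0]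
      linarith
    have h6 : Real.exp (g.M * η) ≤ 2 := by
      refine (Real.exp_le_exp.2 h5).trans ?_
      have h7 := Real.exp_one_lt_d9
      have h8 : Real.exp (1 / 2) * Real.exp (1 / 2) = Real.exp 1 := by
        rw [← Real.exp_add]
        norm_num
      have h9 : 0 < Real.exp (1 / 2 : ℝ) := Real.exp_pos _
      nlinarith
    exact h4.trans h6
  have hA : c0 * L ≤ (gA g m0).card := by
    refine hGr.many.trans ?_
    exact_mod_cast card_gA_grd r0 Ds T n hDT hT1 hGr.deg.le m0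
  have hM0 : (0 : ℝ) ≤ (1 + η) ^ (gd H g (uJ ex)).M := by positivity
  generalize (1 + η) ^ (gd H g (uJ ex)).M = E at hMe hM0
  have hns : ((gd H g (uJ ex)).ns : ℝ) ≤ c0 * l1 / (2 * Real.log v) * L := hGr.small
  have t1 := est1 (ε := ε) (E := E) (b := 1 + η - κ / 2) (ns := (gd H g (uJ ex)).ns)
    (A := (gA g m0).card) hpts (by linarith : 0 ≤ Z) (by linarith : 1 < v) hMe (by linarith)
    (by rw [hθ1d]; linarith) hθ10 hθ11.le hl1 hA hns (hn1 n e1)
  have t2 := est2 (l := l) (E := E) hε hpts (by linarith : 0 ≤ Z) (by linarith : 0 ≤ v) hMe hR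
  have t3 := est3 (ε := ε) (k := k) (E := E) (A := (gA g m0).card) (l := l) (by omega) hpts hZ0
    (by linarith : 1 ≤ v) hM0 hMe hκ0 hκ1 hη0 hηκ hθ hθ0 hθ1.le hlθ hA hk2 (hn2 n e2)
  have hsum : ε * pts = ε / 3 * pts + ε / 3 * pts + ε / 3 * pts := by ring
  rw [hsum]
  exact add_le_add (add_le_add t1 t2) t3

end Pool.Agent.SmL.J
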