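import Pool.Agent.Lib.SmL.J.Uni

/-!
SMITH-L (odd prime `l`), block J: the class function of a property of
the Frobenius elements of the marked primes, and Chebotarev for it.
-/

set_option autoImplicit false

open Module Finset

namespace Pool.Agent.SmL.J

variable {l : ℕ} [Fact l.Prime] {A G V V1 Pl : Type} [CommRing A] [Group G] [AddCommGroup V]
  [Module A V] [DistribMulAction G V] [AddCommGroup V1] [Module (ZMod l) V1]
  {S : Sys l A G V V1 Pl} {X : PSys} {cd : CData S X}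

theorem exists_T (Geo N : Subgroup G) (hN : N.index ≠ 0) :
    ∃ T : Finset G, (∀ t ∈ T, t ∈ Geo) ∧ (∀ g ∈ Geo, ∃! t, t ∈ T ∧ t⁻¹ * g ∈ N) ∧
      T.card ≤ N.index ∧ T.Nonempty := by
  classical
  have hfi : Finite (G ⧸ N) := Nat.finite_of_card_ne_zero hN
  have := Fintype.ofFinite {y : G ⧸ N // ∃ g ∈ Geo, (g : G ⧸ N) = y}
  let ch : {y : G ⧸ N // ∃ g ∈ Geo, (g : G ⧸ N) = y} → G := fun y => y.2.choose
  have hch1 : ∀ y, ch y ∈ Geo := fun y => y.2.choose_spec.1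
  have hch2 : ∀ y, ((ch y : G) : G ⧸ N) = y.1 := fun y => y.2.choose_spec.2
  refine ⟨Finset.univ.image ch, fun t ht => ?_, fun g hg => ?_, ?_, ?_⟩
  · obtain ⟨y, _, rfl⟩ := Finset.mem_image.1 ht
    exact hch1 y
  · let y : {y : G ⧸ N // ∃ g ∈ Geo, (g : G ⧸ N) = y} := ⟨g, g, hg, rfl⟩
    refine ⟨ch y, ⟨Finset.mem_image_of_mem _ (Finset.mem_univ _),
      QuotientGroup.eq.1 (hch2 y)⟩, ?_⟩
    rintro t ⟨ht, htg⟩
    obtain ⟨y', _, rfl⟩ := Finset.mem_image.1 ht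
    have h1 : ((ch y' : G) : G ⧸ N) = g := QuotientGroup.eq.2 htg
    rw [hch2] at h1
    have h2 : y' = y := Subtype.ext h1
    rw [h2]
  · refine Finset.card_image_le.trans ?_
    rw [Finset.card_univ, ← Nat.card_eq_fintype_card]
    exact Nat.card_le_card_of_injective _ Subtype.val_injective
  · exact ⟨_, Finset.mem_image_of_mem _ (Finset.mem_univ ⟨(1 : G), 1, one_mem _, rfl⟩)⟩

open Classical in
/-- The class function of a property. -/
noncomputable def avf (cd : CData S X) (Pr : G → Prop) (s : G) : ℝ :=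
  (∑ g ∈ cd.R, if Pr (g * s * g⁻¹) then (1 : ℝ) else 0) / cd.R.card

theorem R_nonempty (hc : cd.Ok) : cd.R.Nonempty := by
  obtain ⟨h, hh, _⟩ := hc.rep 1
  exact ⟨h, hh.1⟩

theorem avf_class (hc : cd.Ok) (Pr : G → Prop)
    (hPr : ∀ s, ∀ n ∈ S.GN, Pr (n * s * n⁻¹) ↔ Pr s) (s t : G) :
    avf cd Pr (t * s * t⁻¹) = avf cd Pr s := by
  classical
  have hGN : S.GN.Normal := MonoidHom.normal_ker S.ac
  choose rp hrp1 hrp2 using fun g => (hc.rep g).exists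
  unfold avf
  congr 1
  let k : G → G := fun g => rp (g * t)
  have hinj : Set.InjOn k cd.R := by
    intro g1 h1 g2 h2 h12
    have h3 := hrp2 (g1 * t)
    have h4 := hrp2 (g2 * t)
    have h12' : rp (g1 * t) = rp (g2 * t) := h12
    rw [h12'] at h3
    have h5 : (g1 * t)⁻¹ * (g2 * t) ∈ S.GN := by
      have := mul_mem h3 (inv_mem h4)
      have h6 : (g1 * t)⁻¹ * rp (g2 * t) * ((g2 * t)⁻¹ * rp (g2 * t))⁻¹ =
          (g1 * t)⁻¹ * (g2 * t) := by group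
      rwa [h6] at this
    have h7 : g1⁻¹ * g2 ∈ S.GN := by
      have := hGN.conj_mem _ h5 t
      have h8 : t * ((g1 * t)⁻¹ * (g2 * t)) * t⁻¹ = g1⁻¹ * g2 := by group
      rwa [h8] at this
    have h9 : g1⁻¹ * g1 ∈ S.GN := by
      rw [inv_mul_cancel]
      exact one_mem _
    exact (hc.rep g1).unique ⟨h1, h9⟩ ⟨h2, h7⟩
  have himg : cd.R.image k = cd.R := by
    refine Finset.eq_of_subset_of_card_le (fun x hx => ?_) ?_
    · obtain ⟨g, _, rfl⟩ := Finset.mem_image.1 hx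
      exact hrp1 _
    · rw [Finset.card_image_of_injOn hinj]
  conv_rhs => rw [← himg]
  rw [Finset.sum_image hinj]
  refine Finset.sum_congr rfl fun g _ => ?_
  have h1 : Pr (g * (t * s * t⁻¹) * g⁻¹) ↔ Pr (k g * s * (k g)⁻¹) := by
    have h2 := hrp2 (g * t)
    have h3 : (g * t) * (rp (g * t))⁻¹ ∈ S.GN := by
      have := hGN.conj_mem _ (inv_mem h2) (g * t)
      have h4 : g * t * ((g * t)⁻¹ * rp (g * t))⁻¹ * (g * t)⁻¹ = (g * t) * (rp (g * t))⁻¹ := by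
        group
      rwa [h4] at this
    rw [← hPr (k g * s * (k g)⁻¹) _ h3]
    have h5 : g * t * (rp (g * t))⁻¹ * (k g * s * (k g)⁻¹) * (g * t * (rp (g * t))⁻¹)⁻¹ =
        g * (t * s * t⁻¹) * g⁻¹ := by
      change g * t * (rp (g * t))⁻¹ * (rp (g * t) * s * (rp (g * t))⁻¹) *
        (g * t * (rp (g * t))⁻¹)⁻¹ = _
      group
    rw [h5]
  simp only [h1]

theorem avf_inv (cd : CData S X) (Pr : G → Prop) (N : Subgroup G) (hN : N.Normal)
    (hPr : ∀ s, ∀ n ∈ N, Pr (s * n) ↔ Pr s) (s : G) : ∀ n ∈ N, avf cd Pr (s * n) = avf cd Pr s := by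
  classical
  intro n hn
  unfold avf
  congr 1
  refine Finset.sum_congr rfl fun g _ => ?_
  have h1 : g * (s * n) * g⁻¹ = g * s * g⁻¹ * (g * n * g⁻¹) := by group
  rw [h1]
  have h2 := hPr (g * s * g⁻¹) _ (hN.conj_mem n hn g)
  simp only [h2]

theorem avf_nonneg (cd : CData S X) (Pr : G → Prop) (s : G) : 0 ≤ avf cd Pr s := by
  classical
  refine div_nonneg (Finset.sum_nonneg fun g _ => ?_) (Nat.cast_nonneg _)
  split_ifs <;> norm_num

theorem avf_le_one (cd : CData S X) (Pr : G → Prop) (s : G) : avf cd Pr s ≤ 1 := by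
  classical
  refine div_le_one_of_le₀ ?_ (Nat.cast_nonneg _)
  calc _ ≤ ∑ _g ∈ cd.R, (1 : ℝ) := by
        refine Finset.sum_le_sum fun g _ => ?_
        split_ifs <;> norm_num
    _ = _ := by simp

/-- The marked primes of degree `d` with a property. -/
abbrev MkP (cd : CData S X) (d : ℕ) (Pr : G → Prop) : Type :=
  {x : cd.Mk // X.deg x.1 = d ∧ Pr (cd.phx x)}

theorem card_MkP (hc : cd.Ok) (Pr : G → Prop) (d : ℕ) (E : Finset X.Pr)
    (hE : ∀ P, P ∈ E ↔ X.deg P = d) :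
    (Nat.card (MkP cd d Pr) : ℝ) = cd.R.card * ∑ P ∈ E, avf cd Pr (S.phi (cd.pl P)) := by
  classical
  have hR : (cd.R.card : ℝ) ≠ 0 := by
    exact_mod_cast (Finset.card_pos.2 (R_nonempty hc)).ne'
  have h1 : cd.R.card * ∑ P ∈ E, avf cd Pr (S.phi (cd.pl P)) =
      ∑ P ∈ E, ∑ g ∈ cd.R, if Pr (g * S.phi (cd.pl P) * g⁻¹) then (1 : ℝ) else 0 := by
    rw [Finset.mul_sum]
    refine Finset.sum_congr rfl fun P _ => ?_
    unfold avf
    rw [mul_div_cancel₀ _ hR]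
  rw [h1, ← Finset.sum_product', ← Finset.sum_filter, Finset.sum_const, nsmul_eq_mul, mul_one]
  congr 1
  let eq : MkP cd d Pr ≃
      {a // a ∈ (E ×ˢ cd.R).filter fun a => Pr (a.2 * S.phi (cd.pl a.1) * a.2⁻¹)} :=
    { toFun := fun x => ⟨(x.1.1, x.1.2.1), Finset.mem_filter.2
        ⟨Finset.mem_product.2 ⟨(hE _).2 x.2.1, x.1.2.2⟩, x.2.2⟩⟩
      invFun := fun a => ⟨(a.1.1, ⟨a.1.2, (Finset.mem_product.1 (Finset.mem_filter.1 a.2).1).2⟩),
        (hE _).1 (Finset.mem_product.1 (Finset.mem_filter.1 a.2).1).1,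
        (Finset.mem_filter.1 a.2).2⟩
      left_inv := fun x => rfl
      right_inv := fun a => rfl }
  rw [Nat.card_congr eq, Nat.card_eq_fintype_card, Fintype.card_coe]

variable {Geo : Subgroup G} {fr : G} {q a C : ℕ}

/-- Chebotarev for the marked primes with a property. -/
theorem cheb_MkP (hc : cd.Ok) (hC : cd.Cheb Geo fr q a C) (Pr : G → Prop)
    (hPr : ∀ s, ∀ n ∈ S.GN, Pr (n * s * n⁻¹) ↔ Pr s) (N : Subgroup G) (hN : N.Normal)
    (hN0 : ∃ N0 ∈ S.NN, N0 ≤ N) (hPrN : ∀ s, ∀ n ∈ N, Pr (s * n) ↔ Pr s)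
    (T : Finset G) (hT : ∀ t ∈ T, t ∈ Geo) (hT' : ∀ g ∈ Geo, ∃! t, t ∈ T ∧ t⁻¹ * g ∈ N)
    (d r : ℕ) (hd : 1 ≤ d) (B : Finset X.Pr) (hB : ∀ P, S.sg (cd.pl P) ∉ N → P ∈ B)
    (hBr : X.degS B ≤ r) (hBd : ∀ P ∈ B, X.deg P ≠ d) (E : Finset X.Pr)
    (hE : ∀ P, P ∈ E ↔ X.deg P = d) :
    |(Nat.card (MkP cd d Pr) : ℝ) - (cd.R.card * E.card) *
      ((∑ t ∈ T, avf cd Pr (fr ^ d * t)) / T.card)| ≤
      cd.R.card * (C * ((N.index : ℝ) * (r + 1)) ^ a * √((q : ℝ) ^ d)) := by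
  have h1 := hC N hN hN0 (avf cd Pr) (avf_inv cd Pr N hN hPrN) (fun s t => avf_class hc Pr hPr s t)
    (fun s => by rw [abs_of_nonneg (avf_nonneg cd Pr s)]; exact avf_le_one cd Pr s) T hT hT' d r hd
    B hB hBr E (fun P => by
      rw [hE]
      exact ⟨fun h => ⟨h, fun hP => hBd P hP h⟩, fun h => h.1⟩)
  rw [card_MkP hc Pr d E hE, mul_assoc, ← mul_sub, abs_mul, Nat.abs_cast]
  exact mul_le_mul_of_nonneg_left h1 (Nat.cast_nonneg _)

end Pool.Agent.SmL.J
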