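import Pool.Agent.Lib.SmL.Cnt.Stmts

/-!
SMITH-L (odd prime `l`), block J: elementary facts on the cocycles of the marked primes (used in
block J only; independent of the files of the blocks G and G6).
-/

set_option autoImplicit false

open Finset

namespace Pool.Agent.SmL.J

variable {l : ℕ} {A G V V1 Pl : Type} [CommRing A] [Group G] [AddCommGroup V] [Module A V]
  [DistribMulAction G V] [AddCommGroup V1] [Module (ZMod l) V1] {S : Sys l A G V V1 Pl}

theorem ac_inv_cancel (g : G) (w : V1) : S.ac g (S.ac g⁻¹ w) = w := by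
  rw [← LinearEquiv.mul_apply, ← map_mul, mul_inv_cancel, map_one]; rfl

theorem ac_cancel_inv (g : G) (w : V1) : S.ac g⁻¹ (S.ac g w) = w := by
  rw [← LinearEquiv.mul_apply, ← map_mul, inv_mul_cancel, map_one]; rfl

theorem ac_mul (g k : G) (w : V1) : S.ac (g * k) w = S.ac g (S.ac k w) := by
  rw [map_mul, LinearEquiv.mul_apply]

/-- The value of a cocycle at a conjugate element. -/
theorem coc_conj {b : G → V1} (hb : ∀ s t, b (s * t) = b s + S.ac s (b t)) (a s : G) :
    b (a * s * a⁻¹) = S.ac a (b s - (S.ac s (S.ac a⁻¹ (b a)) - S.ac a⁻¹ (b a))) := by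
  have h1 : b a⁻¹ = -S.ac a⁻¹ (b a) := by
    have h2 := hb a⁻¹ a
    rw [inv_mul_cancel, Sys.cocG_one hb] at h2
    exact eq_neg_of_add_eq_zero_left h2.symm
  have h4 : S.ac a (S.ac a⁻¹ (b a)) = b a := ac_inv_cancel a (b a)
  rw [hb, hb, h1, map_neg, map_sub, map_sub, h4, ac_mul]
  abel

/-- Pointwise preimages under `lam`. -/
theorem exists_hf (h : S.Ok) : ∃ hf : V → V, ∀ Q, S.lam • hf Q = Q :=
  ⟨fun Q => (h.half Q).choose, fun Q => (h.half Q).choose_spec⟩

/-- Finitely many `NN`-finite functions together are `NN`-finite. -/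
theorem tf_pi (h : S.Ok) {ι α : Type*} [Finite ι] {f : ι → G → α} (hf : ∀ i, S.TF (f i)) :
    S.TF (fun s i => f i s) := by
  classical
  have := Fintype.ofFinite ι
  choose N hN hf using hf
  have key : ∀ I : Finset ι, (I.inf N) ∈ S.NN := by
    intro I
    induction I using Finset.induction_on with
    | empty => simpa using h.top_mem
    | insert a I _ ih => rw [Finset.inf_insert]; exact h.inf_mem _ (hN a) _ ih
  refine ⟨Finset.univ.inf N, key _, fun s n hn => funext fun i => ?_⟩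
  have hle : Finset.univ.inf N ≤ N i := Finset.inf_le (Finset.mem_univ i)
  exact hf i s n (hle hn)

theorem cocG_zero (h : S.Ok) : S.CocG (fun _ => (0 : V1)) :=
  ⟨Sys.TF_const h 0, fun s _ => by rw [map_zero, add_zero]⟩

theorem cocG_add (h : S.Ok) {b c : G → V1} (hb : S.CocG b) (hc : S.CocG c) :
    S.CocG (fun s => b s + c s) :=
  ⟨Sys.TF.comp₂ h hb.1 hc.1 (fun x y => x + y), fun s t => by
    beta_reduce
    rw [hb.2, hc.2, map_add]
    abel⟩

theorem cocG_sum (h : S.Ok) {ι : Type} (t : Finset ι) (f : ι → G → V1)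
    (hf : ∀ i ∈ t, S.CocG (f i)) : S.CocG (fun s => ∑ i ∈ t, f i s) := by
  classical
  induction t using Finset.induction_on with
  | empty =>
    simp only [Finset.sum_empty]
    exact cocG_zero h
  | insert a t ha ih =>
    simp only [Finset.sum_insert ha]
    exact cocG_add h (hf a (Finset.mem_insert_self a t))
      (ih fun i hi => hf i (Finset.mem_insert_of_mem hi))

theorem homG_zero (h : S.Ok) : S.HomG (fun _ => (0 : ZMod l)) :=
  ⟨Sys.TF_const h 0, fun _ _ => (add_zero _).symm⟩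

theorem homG_add (h : S.Ok) {b c : G → ZMod l} (hb : S.HomG b) (hc : S.HomG c) :
    S.HomG (fun s => b s + c s) :=
  ⟨Sys.TF.comp₂ h hb.1 hc.1 (fun x y => x + y), fun s t => by
    beta_reduce
    rw [hb.2, hc.2]
    abel⟩

theorem homG_mul {b : G → ZMod l} (a : ZMod l) (hb : S.HomG b) : S.HomG (fun s => a * b s) :=
  ⟨Sys.TF.comp hb.1 (fun x => a * x), fun s t => by
    beta_reduce
    rw [hb.2, mul_add]⟩

theorem homG_sum (h : S.Ok) {ι : Type} (t : Finset ι) (f : ι → G → ZMod l)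
    (hf : ∀ i ∈ t, S.HomG (f i)) : S.HomG (fun s => ∑ i ∈ t, f i s) := by
  classical
  induction t using Finset.induction_on with
  | empty =>
    simp only [Finset.sum_empty]
    exact homG_zero h
  | insert a t ha ih =>
    simp only [Finset.sum_insert ha]
    exact homG_add h (hf a (Finset.mem_insert_self a t))
      (ih fun i hi => hf i (Finset.mem_insert_of_mem hi))

theorem loc_mem_CP {b : G → V1} (hb : S.CocG b) (v : Pl) : S.loc v b ∈ S.CP v :=
  ⟨b, ⟨hb.1.on _, fun s _ t _ => hb.2 s t⟩, rfl⟩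

theorem cocG_cob (h : S.Ok) (z : V1) : S.CocG (fun s => S.ac s z - z) := by
  obtain ⟨N, hN, h1⟩ := Sys.ac_fin h
  refine ⟨⟨N, hN, fun s n hn => ?_⟩, fun s t => ?_⟩
  · have h2 : S.ac (s * n) = S.ac s := by rw [map_mul, h1 n hn, mul_one]
    change S.ac (s * n) z - z = S.ac s z - z
    rw [h2]
  · change S.ac (s * t) z - z = S.ac s z - z + S.ac s (S.ac t z - z)
    rw [ac_mul, map_sub]
    abel

theorem cob_mem_CP (h : S.Ok) (v : Pl) (z : V1) : S.cob v z ∈ S.CP v :=
  loc_mem_CP (cocG_cob h z) v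

theorem sy_cob_left (h : S.Ok) (v : Pl) {x : V1 × V1} (hx : x ∈ S.CP v) (z : V1) :
    S.sy v (S.cob v z) x = 0 := by
  rw [h.sy_comm v _ (cob_mem_CP h v z) _ hx, h.sy_cob v x hx z, mul_zero, neg_zero]

variable {X : PSys} {cd : CData S X}

/-! ### One marked prime -/

theorem fx_iff (x : cd.Mk) (w : V1) :
    cd.Fx x w ↔ S.ac (S.phi (cd.pl x.1)) (S.ac x.2.1⁻¹ w) = S.ac x.2.1⁻¹ w := by
  rw [CData.Fx, CData.phx, ac_mul, ac_mul]
  constructor
  · intro h
    have := congrArg (S.ac x.2.1⁻¹) h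
    rwa [ac_cancel_inv] at this
  · intro h
    rw [h, ac_inv_cancel]

theorem fx_zero (x : cd.Mk) : cd.Fx x 0 := map_zero _

theorem bex_coc (hc : cd.Ok) {x : cd.Mk} {w : V1} (h : cd.Fx x w) : S.CocG (cd.bex x w) :=
  hc.be_coc _ _ ((fx_iff x w).1 h)

theorem bex_add (hc : cd.Ok) {x : cd.Mk} {w w' : V1} (h : cd.Fx x w) (h' : cd.Fx x w') :
    cd.bex x (w + w') = cd.bex x w + cd.bex x w' := by
  have := hc.be_add x.1 _ _ ((fx_iff x w).1 h) ((fx_iff x w').1 h')
  rw [← map_add] at this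
  exact this

theorem bex_zero (hc : cd.Ok) (x : cd.Mk) : cd.bex x 0 = 0 := by
  have := bex_add hc (fx_zero x) (fx_zero x)
  rw [add_zero] at this
  exact left_eq_add.mp this

theorem bex_self (hc : cd.Ok) {x : cd.Mk} {w : V1} (h : cd.Fx x w) :
    cd.bex x w (S.sg (cd.pl x.1)) = S.ac x.2.1⁻¹ w :=
  hc.be_self _ _ ((fx_iff x w).1 h)

theorem bex_unr (hc : cd.Ok) {x : cd.Mk} {w : V1} (h : cd.Fx x w) {Q : X.Pr} (hQ : Q ≠ x.1) :
    cd.bex x w (S.sg (cd.pl Q)) = 0 :=
  hc.be_unr _ _ _ hQ ((fx_iff x w).1 h)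

theorem hb_coc (hc : cd.Ok) (c : Fin cd.h → ZMod l) : S.CocG (cd.hb c) :=
  ((hc.hb_range _).1 ⟨c, rfl⟩).1

theorem hb_unr (hc : cd.Ok) (c : Fin cd.h → ZMod l) : cd.Unr (cd.hb c) :=
  ((hc.hb_range _).1 ⟨c, rfl⟩).2

/-! ### Vectors -/

variable {J : Type} {p : J → cd.Mk} [Fintype J]

theorem homN_coc (hS : S.Ok) (hc : cd.Ok) {c : cd.CodeN J} (h : cd.ValidN p c) :
    S.CocG (cd.homN p c) :=
  cocG_add hS (hb_coc hc c.1)
    (cocG_sum hS univ (fun j => cd.bex (p j) (c.2 j)) fun j _ => bex_coc hc (h j))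

theorem chiN_hom (hS : S.Ok) (hc : cd.Ok) (ex : J → ZMod l) (p : J → cd.Mk) :
    S.HomG (cd.chiN ex p) :=
  homG_add hS hc.chi0_hom (homG_sum hS univ (fun j s => ex j * cd.ch (p j).1 s)
    fun j _ => homG_mul _ (hc.ch_hom _))

theorem chiN_ram (hc : cd.Ok) (ex : J → ZMod l) (hp : cd.PVecN p) (j : J) :
    cd.chiN ex p (S.sg (cd.pl (p j).1)) = ex j := by
  classical
  rw [CData.chiN, hc.chi0_unr, zero_add, Finset.sum_eq_single j]
  · rw [hc.ch_self, mul_one]
  · intro j' _ hj'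
    rw [hc.ch_unr _ _ fun h => hj' (hp h.symm), mul_zero]
  · intro h
    exact absurd (Finset.mem_univ j) h

theorem homN_ram (hc : cd.Ok) (hp : cd.PVecN p) {c : cd.CodeN J} (h : cd.ValidN p c) (j : J) :
    cd.homN p c (S.sg (cd.pl (p j).1)) = S.ac (p j).2.1⁻¹ (c.2 j) := by
  classical
  rw [CData.homN, hb_unr hc, zero_add, Finset.sum_eq_single j]
  · exact bex_self hc (h j)
  · intro j' _ hj'
    exact bex_unr hc (h j') fun h => hj' (hp h.symm)
  · intro h
    exact absurd (Finset.mem_univ j) h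

end Pool.Agent.SmL.J
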