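import Mathlib

/-!
SMITH-L (odd prime `l`), block J: echelon form of a family of codes
which is independent on the large places.
-/

set_option autoImplicit false

namespace Pool.Agent.SmL.J

variable {V : Type} [AddCommGroup V]

open Classical in
/-- The last place `< M` where `f` does not vanish. -/
noncomputable def tp (M : ℕ) (f : ℕ → V) : ℕ :=
  ((Finset.range M).filter fun j => f j ≠ 0).sup id

theorem le_tp {M j : ℕ} {f : ℕ → V} (hj : j < M) (h : f j ≠ 0) : j ≤ tp M f := by
  classical
  unfold tp
  exact Finset.le_sup (f := id) (Finset.mem_filter.2 ⟨Finset.mem_range.2 hj, h⟩)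

theorem tp_spec {M j : ℕ} {f : ℕ → V} (hj : j < M) (h : f j ≠ 0) :
    tp M f < M ∧ f (tp M f) ≠ 0 := by
  classical
  have hne : ((Finset.range M).filter fun j => f j ≠ 0).Nonempty :=
    ⟨j, Finset.mem_filter.2 ⟨Finset.mem_range.2 hj, h⟩⟩
  obtain ⟨t, ht, he⟩ := Finset.exists_mem_eq_sup _ hne id
  have h2 : tp M f = t := he
  rw [h2]
  have h3 := Finset.mem_filter.1 ht
  exact ⟨Finset.mem_range.1 h3.1, h3.2⟩

variable {l : ℕ} [Module (ZMod l) V] {I : Type} [Fintype I]

/-- The rows of `b` are linearly independent. -/
def RowInd (b : I → I → ZMod l) : Prop :=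
  ∀ a : I → ZMod l, (∀ k, ∑ i, a i * b i k = 0) → a = 0

/-- The transformed family. -/
def tr (b : I → I → ZMod l) (y : I → ℕ → V) : I → ℕ → V := fun i j => ∑ k, b i k • y k j

theorem rowInd_one [DecidableEq I] : RowInd (fun i k : I => if i = k then (1 : ZMod l) else 0) := by
  intro a ha
  funext k
  have h := ha k
  simpa using h

theorem sum_tr (b : I → I → ZMod l) (y : I → ℕ → V) (a : I → ZMod l) (j : ℕ) :
    ∑ i, a i • tr b y i j = ∑ k, (∑ i, a i * b i k) • y k j := by
  unfold tr
  simp only [Finset.smul_sum, Finset.sum_smul, smul_smul]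
  exact Finset.sum_comm

/-- Echelon form. -/
theorem echelon [Fact l.Prime] (ns M : ℕ) (y : I → ℕ → V)
    (hy : ∀ a : I → ZMod l, (∀ j, ns ≤ j → j < M → ∑ k, a k • y k j = 0) → a = 0) :
    ∃ b : I → I → ZMod l, RowInd b ∧ ∃ top : I → ℕ, (∀ i, ns ≤ top i ∧ top i < M) ∧
      (∀ i j, top i < j → j < M → tr b y i j = 0) ∧
      ∀ t, LinearIndependent (ZMod l) (fun i : {i // top i = t} => tr b y i t) := by
  classical
  let S : Set (I → I → ZMod l) := {b | RowInd b}
  obtain ⟨b, hb, hmin⟩ := WellFounded.has_min
    (measure fun b : I → I → ZMod l => ∑ i, tp M (tr b y i)).wf S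
    ⟨_, rowInd_one (I := I)⟩
  have hnz : ∀ b : I → I → ZMod l, RowInd b → ∀ i, ∃ j, ns ≤ j ∧ j < M ∧ tr b y i j ≠ 0 := by
    intro b hb i
    by_contra hcon
    push Not at hcon
    have h1 : ∀ j, ns ≤ j → j < M →
        ∑ k, (∑ i', (if i' = i then (1 : ZMod l) else 0) * b i' k) • y k j = 0 := by
      intro j h1 h2
      rw [← sum_tr]
      simpa using hcon j h1 h2
    have h2 := hy _ h1
    have h3 := hb _ (fun k => congrFun h2 k)
    have h4 := congrFun h3 i
    simp at h4
  refine ⟨b, hb, fun i => tp M (tr b y i), fun i => ?_, fun i j hij hj => ?_, fun t => ?_⟩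
  · obtain ⟨j, h1, h2, h3⟩ := hnz b hb i
    exact ⟨h1.trans (le_tp h2 h3), (tp_spec h2 h3).1⟩
  · by_contra h
    exact absurd (le_tp hj h) (not_le.2 hij)
  · rw [Fintype.linearIndependent_iff]
    intro g hg
    by_contra hcon
    push Not at hcon
    obtain ⟨i0, hi0⟩ := hcon
    have hi0t : tp M (tr b y i0.1) = t := i0.2
    -- the new family
    let c : I → ZMod l := fun i => if h : tp M (tr b y i) = t then g ⟨i, h⟩ else 0
    have hc0 : c i0.1 ≠ 0 := by
      have h1 : c i0.1 = g i0 := by
        simp only [c, i0.2, dif_pos]
      rw [h1]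
      exact hi0
    let b' : I → I → ZMod l := fun i k => if i = i0.1 then ∑ i', c i' * b i' k else b i k
    have hb' : RowInd b' := by
      intro a ha
      have h1 : ∀ k, ∑ i, (if i = i0.1 then a i0.1 * c i0.1 else a i + a i0.1 * c i) * b i k = 0 := by
        intro k
        rw [← ha k]
        have h2 : ∑ i, a i * b' i k =
            a i0.1 * ∑ i', c i' * b i' k + ∑ i ∈ Finset.univ.erase i0.1, a i * b i k := by
          rw [← Finset.add_sum_erase _ _ (Finset.mem_univ i0.1)]
          congr 1
          · simp [b']
          · refine Finset.sum_congr rfl fun i hi => ?_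
            simp [b', Finset.ne_of_mem_erase hi]
        rw [h2, ← Finset.add_sum_erase _ _ (Finset.mem_univ i0.1),
          ← Finset.add_sum_erase _ (fun i => c i * b i k) (Finset.mem_univ i0.1), if_pos rfl]
        have h3 : ∑ i ∈ Finset.univ.erase i0.1,
            (if i = i0.1 then a i0.1 * c i0.1 else a i + a i0.1 * c i) * b i k =
            ∑ i ∈ Finset.univ.erase i0.1, a i * b i k +
              a i0.1 * ∑ i ∈ Finset.univ.erase i0.1, c i * b i k := by
          rw [Finset.mul_sum, ← Finset.sum_add_distrib]
          refine Finset.sum_congr rfl fun i hi => ?_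
          rw [if_neg (Finset.ne_of_mem_erase hi)]
          ring
        rw [h3]
        ring
      have h2 := hb _ h1
      have h3 := congrFun h2 i0.1
      simp only [if_pos, Pi.zero_apply] at h3
      replace h3 := (mul_eq_zero.1 h3).resolve_right hc0
      funext i
      by_cases hi : i = i0.1
      · rw [hi]; exact h3
      · have h4 := congrFun h2 i
        simpa [if_neg hi, h3] using h4
    have hlt : ∑ i, tp M (tr b' y i) < ∑ i, tp M (tr b y i) := by
      refine Finset.sum_lt_sum (fun i _ => ?_) ⟨i0.1, Finset.mem_univ _, ?_⟩
      · by_cases hi : i = i0.1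
        · subst hi
          obtain ⟨j, h1, h2, h3⟩ := hnz b' hb' i0.1
          have h4 := tp_spec h2 h3
          by_contra hcon
          push Not at hcon
          apply h4.2
          rw [hi0t] at hcon
          have h5 : tr b' y i0.1 (tp M (tr b' y i0.1)) =
              ∑ i, c i • tr b y i (tp M (tr b' y i0.1)) := by
            rw [sum_tr]
            simp [tr, b']
          rw [h5]
          refine Finset.sum_eq_zero fun i _ => ?_
          by_cases hi : tp M (tr b y i) = t
          · have h6 : tr b y i (tp M (tr b' y i0.1)) = 0 := by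
              by_contra h
              have := le_tp h4.1 h
              omega
            rw [h6, smul_zero]
          · simp [c, hi]
        · have h1 : tr b' y i = tr b y i := by
            funext j
            simp [tr, b', hi]
          rw [h1]
      · obtain ⟨j, h1, h2, h3⟩ := hnz b' hb' i0.1
        have h4 := tp_spec h2 h3
        rw [hi0t]
        by_contra hcon
        push Not at hcon
        apply h4.2
        have h5 : tr b' y i0.1 (tp M (tr b' y i0.1)) =
            ∑ i, c i • tr b y i (tp M (tr b' y i0.1)) := by
          rw [sum_tr]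
          simp [tr, b']
        rw [h5]
        rcases hcon.lt_or_eq with hcon | hcon
        · refine Finset.sum_eq_zero fun i _ => ?_
          by_cases hi : tp M (tr b y i) = t
          · have h6 : tr b y i (tp M (tr b' y i0.1)) = 0 := by
              by_contra h
              have := le_tp h4.1 h
              omega
            rw [h6, smul_zero]
          · simp [c, hi]
        · rw [← hcon]
          have h7 : ∑ i, c i • tr b y i t = ∑ i : {i // tp M (tr b y i) = t}, g i • tr b y i t := by
            have h8 : ∑ i, c i • tr b y i t =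
                ∑ i ∈ Finset.univ.filter (fun i => tp M (tr b y i) = t), c i • tr b y i t := by
              rw [Finset.sum_filter]
              refine Finset.sum_congr rfl fun i _ => ?_
              by_cases hi : tp M (tr b y i) = t
              · rw [if_pos hi]
              · rw [if_neg hi]
                simp [c, hi]
            rw [h8, Finset.sum_subtype _ (p := fun i => tp M (tr b y i) = t) (by simp)]
            refine Finset.sum_congr rfl fun i _ => ?_
            have h9 : c i.1 = g i := by
              simp only [c, i.2, dif_pos]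
            rw [h9]
          rw [h7]
          exact hg
    exact hmin b' hb' hlt

end Pool.Agent.SmL.J
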