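import Pool.Agent.Lib.SmL.J.Dep
import Pool.Agent.Lib.SmL.J.Typ

/-!
SMITH-L (odd prime `l`), block J: the symbols of a marked prime and the explicit Selmer condition at
the primes of the twist.
-/

set_option autoImplicit false

open Module Finset

namespace Pool.Agent.SmL.J

variable {l : ℕ} {A G V V1 Pl : Type} [CommRing A] [Group G] [AddCommGroup V] [Module A V]
  [DistribMulAction G V] [AddCommGroup V1] [Module (ZMod l) V1]

/-- The fixed space of `s`. -/
def Fix (S : Sys l A G V V1 Pl) (s : G) : Submodule (ZMod l) V1 where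
  carrier := {w | S.ac s w = w}
  zero_mem' := map_zero _
  add_mem' := by
    intro a b ha hb
    change S.ac s (a + b) = a + b
    rw [map_add, show S.ac s a = a from ha, show S.ac s b = b from hb]
  smul_mem' := by
    intro c a ha
    change S.ac s (c • a) = c • a
    rw [map_smul, show S.ac s a = a from ha]

variable {S : Sys l A G V V1 Pl}

theorem mem_Fix {s : G} {w : V1} : w ∈ Fix S s ↔ S.ac s w = w := Iff.rfl

theorem e_sub (h : S.Ok) {s : G} {v : V1} (hv : v ∈ Fix S s) (z : V1) :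
    S.e v (S.ac s z - z) = 0 := by
  have h1 := h.e_inv s v z
  rw [mem_Fix.1 hv] at h1
  rw [map_sub, h1, sub_self]

theorem e_ac (h : S.Ok) {s : G} {v : V1} (hv : v ∈ Fix S s) (z : V1) :
    S.e v (S.ac s z) = S.e v z := by
  have h1 := h.e_inv s v z
  rwa [mem_Fix.1 hv] at h1

theorem e_nondeg' (h : S.Ok) (w : V1) (hw : ∀ w', S.e w' w = 0) : w = 0 :=
  h.e_nondeg w fun w' => by rw [h.e_symm, hw, mul_zero]

/-- Every form on `A × B` comes from an endomorphism. -/
theorem exists_L [Fact l.Prime] (h : S.Ok) (A B : Submodule (ZMod l) V1) (u : RF A B) :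
    ∃ L : V1 →ₗ[ZMod l] V1, ∀ (v : A) (y : B), S.e v (L y) = u v y := by
  have := h.fin1
  obtain ⟨g, hg⟩ := LinearMap.exists_extend u
  obtain ⟨k, hk⟩ := LinearMap.exists_extend g.flip
  have hinj : Function.Injective S.e.flip := by
    rw [← LinearMap.ker_eq_bot, LinearMap.ker_eq_bot']
    intro w hw
    refine e_nondeg' h w fun w' => ?_
    have := LinearMap.congr_fun hw w'
    rwa [LinearMap.flip_apply] at this
  let E := LinearMap.linearEquivOfInjective S.e.flip hinj
    (Subspace.dual_finrank_eq (K := ZMod l) (V := V1)).symm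
  refine ⟨E.symm.toLinearMap ∘ₗ k, fun v y => ?_⟩
  have h1 : S.e.flip (E.symm (k y)) = k y := E.apply_symm_apply (k y)
  have h2 : S.e v (E.symm (k y)) = k y v := LinearMap.congr_fun h1 (v : V1)
  have h3 : k y v = g v y := by
    have := LinearMap.congr_fun (LinearMap.congr_fun hk y) v
    simpa using this
  have h4 : g v = u v := by
    have := LinearMap.congr_fun hg v
    simpa using this
  change S.e v (E.symm (k y)) = u v y
  rw [h2, h3, h4]

variable {X : PSys} {cd : CData S X}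

theorem fx_iff_Fix (x : cd.Mk) (w : V1) : cd.Fx x w ↔ w ∈ Fix S (cd.phx x) := Iff.rfl

theorem exists_bexL [Fact l.Prime] (hc : cd.Ok) (b : cd.Mk) (s : G) :
    ∃ f : V1 →ₗ[ZMod l] V1, ∀ y ∈ Fix S (cd.phx b), f y = cd.bex b y s := by
  let f0 : Fix S (cd.phx b) →+ V1 :=
    { toFun := fun y => cd.bex b y s
      map_zero' := congrFun (bex_zero hc b) s
      map_add' := fun y y' => congrFun (bex_add hc (x := b) y.2 y'.2) s }
  obtain ⟨f, hf⟩ := LinearMap.exists_extend (f0.toZModLinearMap l)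
  refine ⟨f, fun y hy => ?_⟩
  have := LinearMap.congr_fun hf ⟨y, hy⟩
  exact this

variable [Fact l.Prime]

/-- The linear map `y ↦ bex b y s` (on the fixed space of `phx b`). -/
noncomputable def bexL (hc : cd.Ok) (b : cd.Mk) (s : G) : V1 →ₗ[ZMod l] V1 :=
  (exists_bexL hc b s).choose

theorem bexL_apply (hc : cd.Ok) (b : cd.Mk) (s : G) {y : V1} (hy : y ∈ Fix S (cd.phx b)) :
    bexL hc b s y = cd.bex b y s := (exists_bexL hc b s).choose_spec y hy

/-- The symbol of `s` with respect to `b`. -/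
noncomputable def mS (hc : cd.Ok) (b : cd.Mk) (s : G) : V1 →ₗ[ZMod l] V1 →ₗ[ZMod l] ZMod l :=
  S.e.compl₂ (bexL hc b s)

theorem mS_apply (hc : cd.Ok) (b : cd.Mk) (s : G) (v : V1) {y : V1} (hy : y ∈ Fix S (cd.phx b)) :
    mS hc b s v y = S.e v (cd.bex b y s) := by
  rw [mS, LinearMap.compl₂_apply, bexL_apply hc b s hy]

/-! ### The functional `tau` -/

omit [Fact l.Prime] in
theorem lam_sub_smul (h : S.Ok) {s : G} {y : V1} (hy : y ∈ Fix S s) {Q : V}
    (hQ : S.lam • Q = S.iota y) : S.lam • (s • Q - Q) = 0 := by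
  rw [smul_sub, ← h.smul_comm, hQ, h.iota_ac, mem_Fix.1 hy, sub_self]

omit [Fact l.Prime] in
theorem tau_indep (h : S.Ok) {s : G} {v : V1} (hv : v ∈ Fix S s) {y : V1} (hy : y ∈ Fix S s)
    {Q Q' : V} (hQ : S.lam • Q = S.iota y) (hQ' : S.lam • Q' = S.iota y) :
    S.e v (S.un (s • Q - Q)) = S.e v (S.un (s • Q' - Q')) := by
  obtain ⟨z, hz⟩ := h.iota_range (Q' - Q) (by rw [smul_sub, hQ, hQ', sub_self])
  have h1 : Q' = Q + S.iota z := by rw [hz]; abel
  have h2 : s • Q' - Q' = (s • Q - Q) + S.iota (S.ac s z - z) := by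
    rw [h1, smul_add, h.iota_ac, map_sub]
    abel
  rw [h2, Sys.un_add h (lam_sub_smul h hy hQ) (h.lam_iota _), Sys.un_iota h, map_add, e_sub h hv,
    add_zero]

theorem exists_tau (h : S.Ok) (s : G) (v : V1) : ∃ f : V1 →ₗ[ZMod l] ZMod l,
    v ∈ Fix S s → ∀ y ∈ Fix S s, ∀ Q : V, S.lam • Q = S.iota y →
      f y = S.e v (S.un (s • Q - Q)) := by
  by_cases hv : v ∈ Fix S s
  · obtain ⟨hf, hhf⟩ := exists_hf h
    let f0 : Fix S s →+ ZMod l :=
      { toFun := fun y => S.e v (S.un (s • hf (S.iota y) - hf (S.iota y)))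
        map_zero' := by
          have h1 := tau_indep h hv (zero_mem (Fix S s)) (Q := 0) (Q' := hf (S.iota 0))
            (by rw [smul_zero, map_zero]) (hhf _)
          rw [Submodule.coe_zero, ← h1, smul_zero, sub_zero, Sys.un_zero h, map_zero]
        map_add' := fun y y' => by
          have h1 := tau_indep h hv (add_mem y.2 y'.2) (Q := hf (S.iota y) + hf (S.iota y'))
            (Q' := hf (S.iota (y + y' : V1))) (by rw [smul_add, hhf, hhf, map_add]) (hhf _)
          rw [Submodule.coe_add, ← h1]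
          have h2 : s • (hf (S.iota y) + hf (S.iota y')) - (hf (S.iota y) + hf (S.iota y')) =
              (s • hf (S.iota y) - hf (S.iota y)) + (s • hf (S.iota y') - hf (S.iota y')) := by
            rw [smul_add]
            abel
          rw [h2, Sys.un_add h (lam_sub_smul h y.2 (hhf _)) (lam_sub_smul h y'.2 (hhf _)),
            map_add] }
    obtain ⟨f, hf'⟩ := LinearMap.exists_extend (f0.toZModLinearMap l)
    refine ⟨f, fun _ y hy Q hQ => ?_⟩
    have h1 : f y = f0 ⟨y, hy⟩ := LinearMap.congr_fun hf' ⟨y, hy⟩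
    rw [h1]
    exact tau_indep h hv hy (hhf _) hQ
  · exact ⟨0, fun h => absurd h hv⟩

/-- The functional `y ↦ e(v, s Q - Q)`, `lam Q = y`. -/
noncomputable def tau (h : S.Ok) (s : G) (v : V1) : V1 →ₗ[ZMod l] ZMod l :=
  (exists_tau h s v).choose

theorem tau_apply (h : S.Ok) {s : G} {v : V1} (hv : v ∈ Fix S s) {y : V1} (hy : y ∈ Fix S s)
    {Q : V} (hQ : S.lam • Q = S.iota y) : tau h s v y = S.e v (S.un (s • Q - Q)) :=
  (exists_tau h s v).choose_spec hv y hy Q hQ

/-- The Kummer point at a ramified place. -/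
theorem kum_pt (h : S.Ok) {chi : G → ZMod l} {v : Pl} (hv : v ∈ S.good)
    (hu : chi (S.sg v) ≠ 0) {Q : V} (hQ : ∀ s ∈ S.D v, S.lam • S.dl chi Q s = 0) {w : V1}
    (h1 : S.dl chi Q (S.sg v) = S.iota w) :
    S.lam • Q = S.iota (-((chi (S.sg v))⁻¹ • w)) := by
  have h2 := hQ _ (h.sg_mem v)
  rw [Sys.dl_sg h hv, smul_neg, neg_eq_zero, smul_comm, smul_comm, smul_comm (S.lam) (S.uu _)] at h2
  have h3 : S.lam • S.lam • Q = 0 := by
    refine Sys.uu_inj h hu ?_
    rw [← h2]
    simp only [smul_smul]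
    congr 1
    ring
  obtain ⟨z, hz⟩ := h.iota_range _ h3
  rw [Sys.dl_sg h hv, smul_comm, ← hz, Sys.uu_iota h, ← map_neg] at h1
  have h4 := h.iota_inj h1
  rw [← hz, ← h4, smul_neg, neg_neg, smul_smul, inv_mul_cancel₀ hu, one_smul]

/-- **The explicit Selmer condition** at the primes of the twist. -/
theorem sel_eq (h : S.Ok) (hc : cd.Ok) {J : Type} [Fintype J] {ex : J → ZMod l}
    (hex : ∀ j, ex j ≠ 0) {p : J → cd.Mk} (hp : cd.PVecN p)
    {c : cd.CodeN J} (hcS : c ∈ cd.SelpN ex p) (j : J) {v : V1}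
    (hv : v ∈ Fix S (cd.phx (p j))) :
    S.e v (cd.homN p c (cd.phx (p j))) =
      tau h (cd.phx (p j)) v (-((ex j)⁻¹ • c.2 j)) -
        cd.chiN ex p (cd.phx (p j)) * S.e v (-((ex j)⁻¹ • c.2 j)) := by
  obtain ⟨hval, hW⟩ := hcS
  obtain ⟨Q, hQ2, h1, h2⟩ := hW j
  have hchi := chiN_hom h hc ex p
  have hcoc := homN_coc h hc hval
  set r := (p j).2.1 with hr
  set s0 := S.phi (cd.pl (p j).1) with hs0
  have hphx : cd.phx (p j) = r * s0 * r⁻¹ := rfl
  have hsg : cd.chiN ex p (S.sg (cd.pl (p j).1)) = ex j := chiN_ram hc ex hp j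
  have h3 : (S.loc (cd.pl (p j).1) (cd.homN p c)).1 = S.ac r⁻¹ (c.2 j) :=
    homN_ram hc hp hval j
  set y : V1 := -((ex j)⁻¹ • c.2 j) with hydef
  have h4 : S.lam • Q = S.iota (S.ac r⁻¹ y) := by
    have h5 := kum_pt h (hc.pl_good _) (by rw [hsg]; exact hex j) hQ2 h1
    rw [hsg, h3] at h5
    rw [h5]
    exact congrArg S.iota (by rw [hydef, map_neg, map_smul])
  have h5 : S.lam • (r • Q) = S.iota y := by
    rw [← h.smul_comm, h4, h.iota_ac, ac_inv_cancel]
  have hy : y ∈ Fix S (cd.phx (p j)) := neg_mem (Submodule.smul_mem _ _ (hval j))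
  -- the value of the cocycle
  have h6 : S.e v (cd.homN p c (cd.phx (p j))) = S.e v (S.ac r (cd.homN p c s0)) := by
    rw [hphx, coc_conj hcoc.2, map_sub, map_sub]
    have h7 : S.ac r (S.ac s0 (S.ac r⁻¹ (cd.homN p c r)) - S.ac r⁻¹ (cd.homN p c r)) =
        S.ac (cd.phx (p j)) (cd.homN p c r) - cd.homN p c r := by
      rw [hphx, ac_mul, ac_mul, map_sub, ac_inv_cancel]
    rw [h7, e_sub h hv, sub_zero]
  -- the value of the character
  have h8 : cd.chiN ex p (cd.phx (p j)) = cd.chiN ex p s0 := by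
    have h9 : cd.chiN ex p r + cd.chiN ex p r⁻¹ = 0 := by
      rw [← hchi.2, mul_inv_cancel, chi_one hchi.2]
    rw [hphx, hchi.2, hchi.2, add_right_comm, h9, zero_add]
  rw [h6, h8]
  -- the Kummer point
  have h10 : S.iota (S.ac r (cd.homN p c s0)) = r • S.dl (cd.chiN ex p) Q s0 := by
    rw [← h.iota_ac]
    exact congrArg (fun t => r • t) h2.symm
  have h11 : r • (s0 • Q) = cd.phx (p j) • (r • Q) := by
    rw [hphx, smul_smul, smul_smul]
    congr 1
    group
  have htau := tau_apply h hv hy h5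
  have h2s := lam_sub_smul h hy h5
  set a := cd.chiN ex p s0 with ha
  have h12 : S.iota (S.ac r (cd.homN p c s0)) =
      (cd.phx (p j) • (r • Q) - r • Q) - S.iota (a • y) := by
    rw [h10, Sys.dl, Sys.tw, ← ha, smul_sub, h.smul_comm, h11, Sys.zz_eq, sub_smul, one_smul,
      mul_comm, mul_smul, ← h.smul_comm, h5, h.iota_ac, mem_Fix.1 hy, Sys.uu_iota h]
    abel
  have h16 : S.ac r (cd.homN p c s0) = S.un (cd.phx (p j) • (r • Q) - r • Q) - a • y := by
    rw [← Sys.un_iota h (S.ac r (cd.homN p c s0)), h12, Sys.un_sub h h2s (h.lam_iota _),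
      Sys.un_iota h]
  rw [htau, h16, map_sub, map_smul, smul_eq_mul]

end Pool.Agent.SmL.J
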