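import Pool.Agent.Lib.SmL.J.NI

/-!
SMITH-L (odd prime `l`), block J: lower bounds for the number of the
marked primes with a property of the class `kf`; reciprocity; the value of unramified cocycles.
-/

set_option autoImplicit false

open Module Finset

namespace Pool.Agent.SmL.J

variable {l : ℕ} [Fact l.Prime] {A G V V1 Pl : Type} [CommRing A] [Group G] [AddCommGroup V]
  [Module A V] [DistribMulAction G V] [AddCommGroup V1] [Module (ZMod l) V1]
  {S : Sys l A G V V1 Pl} {X : PSys} {cd : CData S X}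

variable {Geo : Subgroup G} {fr : G} {q a C : ℕ}

/-- Lower bound. -/
theorem low_main (hc : cd.Ok) (hG : CData.GeoOk (S := S) Geo fr) (hS : S.Ok)
    (hC : cd.Cheb Geo fr q a C) {N1 : Subgroup G} (hN1 : N1 ∈ S.NN) (hN1i : N1.index ≠ 0)
    (hsg : ∀ P, S.sg (cd.pl P) ∈ N1) (hN1k : ∀ s, ∀ n ∈ N1, cd.kf (s * n) = cd.kf s)
    {d : ℕ} (hd : 1 ≤ d) {E : Finset X.Pr} (hE : ∀ P, P ∈ E ↔ X.deg P = d)
    (Θ : cd.Kf → Prop) {g0 : G} (hg0 : g0 ∈ Geo) (hΘ : Θ (cd.kf (fr ^ d * g0))) :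
    (E.card : ℝ) / N1.index - cd.R.card * (C * (N1.index : ℝ) ^ a * √((q : ℝ) ^ d)) ≤
      Nat.card (MkP cd d (fun s => Θ (cd.kf s))) := by
  classical
  have hN1n := hS.normal N1 hN1
  obtain ⟨T, hT, hT', hTc, hTne⟩ := exists_T Geo N1 hN1i
  have h1 := cheb_MkP hc hC (fun s => Θ (cd.kf s)) (fun s n hn => by rw [hc.kf_conj s n hn]) N1
    hN1n ⟨N1, hN1, le_rfl⟩ (fun s n hn => by rw [hN1k s n hn]) T hT hT' d 0 hd ∅
    (fun P hP => absurd (hsg P) hP) (by simp [PSys.degS]) (fun P hP => by simp at hP) E hE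
  obtain ⟨g, hg⟩ := R_nonempty hc
  have hcomm : (fr ^ d)⁻¹ * g⁻¹ * fr ^ d * g ∈ Geo := by
    refine hG.comm ?_
    have := Subgroup.commutator_mem_commutator (Subgroup.mem_top (fr ^ d)⁻¹)
      (Subgroup.mem_top (g⁻¹ : G)) (G := G)
    rw [commutatorElement_def, inv_inv, inv_inv] at this
    rw [commutator_def]
    exact this
  have hγ : (fr ^ d)⁻¹ * g⁻¹ * (fr ^ d * g0) * g ∈ Geo := by
    have h2 := mul_mem hcomm (hG.normal.conj_mem _ hg0 g⁻¹)
    have h3 : (fr ^ d)⁻¹ * g⁻¹ * fr ^ d * g * (g⁻¹ * g0 * g⁻¹⁻¹) =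
        (fr ^ d)⁻¹ * g⁻¹ * (fr ^ d * g0) * g := by group
    rwa [h3] at h2
  obtain ⟨τ, ⟨hτ, hτN⟩, _⟩ := hT' _ hγ
  have hval : Θ (cd.kf (g * (fr ^ d * τ) * g⁻¹)) := by
    have h4 : g * (fr ^ d * τ) * g⁻¹ = (fr ^ d * g0) *
        (g * (τ⁻¹ * ((fr ^ d)⁻¹ * g⁻¹ * (fr ^ d * g0) * g))⁻¹ * g⁻¹) := by group
    rw [h4, hN1k _ _ (hN1n.conj_mem _ (inv_mem hτN) g)]
    exact hΘ
  have hR : (0 : ℝ) < cd.R.card := by exact_mod_cast Finset.card_pos.2 (R_nonempty hc)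
  have hTp : (0 : ℝ) < T.card := by exact_mod_cast Finset.card_pos.2 hTne
  have h5 : 1 / (cd.R.card : ℝ) ≤ ∑ t ∈ T, avf cd (fun s => Θ (cd.kf s)) (fr ^ d * t) := by
    refine le_trans ?_ (Finset.single_le_sum
      (f := fun t => avf cd (fun s => Θ (cd.kf s)) (fr ^ d * t))
      (fun t _ => avf_nonneg cd _ _) hτ)
    unfold avf
    refine div_le_div_of_nonneg_right ?_ hR.le
    refine le_trans ?_ (Finset.single_le_sum
      (f := fun g => if Θ (cd.kf (g * (fr ^ d * τ) * g⁻¹)) then (1 : ℝ) else 0)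
      (fun g _ => by split_ifs <;> norm_num) hg)
    simp only [hval, if_true]
    exact le_rfl
  have h6 : (E.card : ℝ) / N1.index ≤ (cd.R.card * E.card : ℝ) *
      ((∑ t ∈ T, avf cd (fun s => Θ (cd.kf s)) (fr ^ d * t)) / T.card) := by
    have h7 : (1 / (cd.R.card : ℝ)) / T.card ≤
        (∑ t ∈ T, avf cd (fun s => Θ (cd.kf s)) (fr ^ d * t)) / T.card :=
      div_le_div_of_nonneg_right h5 hTp.le
    have hRE : (0 : ℝ) ≤ cd.R.card * E.card := mul_nonneg (Nat.cast_nonneg _) (Nat.cast_nonneg _)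
    refine le_trans ?_ (mul_le_mul_of_nonneg_left h7 hRE)
    have h8 : (cd.R.card * E.card : ℝ) * ((1 / (cd.R.card : ℝ)) / T.card) = E.card / T.card := by
      rw [div_div, mul_one_div, mul_div_mul_left _ _ hR.ne']
    rw [h8]
    refine div_le_div_of_nonneg_left (Nat.cast_nonneg _) hTp ?_
    exact_mod_cast hTc
  have h9 := (abs_le.1 h1).1
  have h10 : cd.R.card * (C * ((N1.index : ℝ) * ((0 : ℕ) + 1)) ^ a * √((q : ℝ) ^ d)) =
      cd.R.card * (C * (N1.index : ℝ) ^ a * √((q : ℝ) ^ d)) := by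
    rw [Nat.cast_zero, zero_add, mul_one]
  rw [h10] at h9
  linarith

/-! ### Reciprocity -/

theorem e_phx (hS : S.Ok) {b : G → V1} (hb : S.CocG b) (x : cd.Mk) {v : V1}
    (hv : v ∈ Fix S (cd.phx x)) :
    S.e v (b (cd.phx x)) = S.e (S.ac x.2.1⁻¹ v) (b (S.phi (cd.pl x.1))) := by
  set r := x.2.1 with hr
  set s0 := S.phi (cd.pl x.1) with hs0
  have hphx : cd.phx x = r * s0 * r⁻¹ := rfl
  have h7 : S.ac r (S.ac s0 (S.ac r⁻¹ (b r)) - S.ac r⁻¹ (b r)) =
      S.ac (cd.phx x) (b r) - b r := by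
    rw [hphx, ac_mul, ac_mul, map_sub, ac_inv_cancel]
  have h8 : S.e v (b (cd.phx x)) = S.e v (S.ac r (b s0)) := by
    rw [hphx, coc_conj hb.2, map_sub, map_sub, h7, e_sub hS hv, sub_zero]
  rw [h8, ← hS.e_inv r (S.ac r⁻¹ v), ac_inv_cancel]

/-- The local terms at the bad places. -/
noncomputable def bt (hc : cd.Ok) (a b : cd.Mk) (v y : V1) : ZMod l :=
  ∑ u ∈ hc.fin_bad.toFinset, S.sy u (S.loc u (cd.bex a v)) (S.loc u (cd.bex b y))

theorem se_sq (hS : S.Ok) : S.se * S.se = 1 := by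
  rcases hS.se_eq with h | h <;> rw [h] <;> ring

theorem recip_sym (hS : S.Ok) (hc : cd.Ok) {a b : cd.Mk} (hab : a.1 ≠ b.1) {v y : V1}
    (hv : v ∈ Fix S (cd.phx a)) (hy : y ∈ Fix S (cd.phx b)) :
    -mS hc b (cd.phx a) v y + (S.se * mS hc a (cd.phx b) y v + bt hc a b v y) = 0 := by
  classical
  have hca := bex_coc hc (x := a) hv
  have hcb := bex_coc hc (x := b) hy
  have h1 := hS.recip _ _ hca hcb
  have hne : cd.pl a.1 ≠ cd.pl b.1 := fun h => hab (hc.pl_inj h)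
  set Bd := hc.fin_bad.toFinset with hBd
  have hmem : ∀ u, u ∈ Bd ↔ u ∉ Set.range cd.pl := by
    intro u
    rw [hBd, Set.Finite.mem_toFinset]
    rfl
  have h2 : Function.support (fun u => S.sy u (S.loc u (cd.bex a v)) (S.loc u (cd.bex b y))) ⊆
      ((insert (cd.pl a.1) (insert (cd.pl b.1) Bd) : Finset Pl) : Set Pl) := by
    intro u hu
    by_contra hcon
    simp only [Finset.coe_insert, Set.mem_insert_iff, Finset.mem_coe, not_or, hmem,
      not_not] at hcon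
    obtain ⟨hu1, hu2, P, rfl⟩ := hcon
    apply hu
    change S.sy (cd.pl P) _ _ = 0
    rw [hS.sy_unr _ (hc.pl_good P) _ (loc_mem_CP hca _) _ (loc_mem_CP hcb _)
      (bex_unr hc hv fun h => hu1 (congrArg cd.pl h))]
    have h3 : (S.loc (cd.pl P) (cd.bex b y)).1 = 0 :=
      bex_unr hc hy fun h => hu2 (congrArg cd.pl h)
    rw [h3, map_zero]
  rw [finsum_eq_sum_of_support_subset _ h2, Finset.sum_insert, Finset.sum_insert] at h1
  · have h3 : S.sy (cd.pl a.1) (S.loc (cd.pl a.1) (cd.bex a v)) (S.loc (cd.pl a.1) (cd.bex b y)) =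
        -mS hc b (cd.phx a) v y := by
      rw [hS.sy_comm _ _ (loc_mem_CP hca _) _ (loc_mem_CP hcb _),
        hS.sy_unr _ (hc.pl_good _) _ (loc_mem_CP hcb _) _ (loc_mem_CP hca _)
          (bex_unr hc hy hab), mS_apply hc _ _ _ hy, e_phx hS hcb a hv, hS.e_symm,
        ← mul_assoc, se_sq hS, one_mul]
      congr 2
      exact congrArg S.e (bex_self hc hv)
    have h4 : S.sy (cd.pl b.1) (S.loc (cd.pl b.1) (cd.bex a v)) (S.loc (cd.pl b.1) (cd.bex b y)) =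
        S.se * mS hc a (cd.phx b) y v := by
      rw [hS.sy_unr _ (hc.pl_good _) _ (loc_mem_CP hca _) _ (loc_mem_CP hcb _)
          (bex_unr hc hv hab.symm), mS_apply hc _ _ _ hv, e_phx hS hca b hy, hS.e_symm]
      congr 2
      exact congrArg S.e (bex_self hc hy)
    rw [h3, h4] at h1
    exact h1
  · rw [hmem]
    exact fun h => h ⟨_, rfl⟩
  · rw [Finset.mem_insert, not_or, hmem]
    exact ⟨hne, fun h => h ⟨_, rfl⟩⟩

/-- The local terms only depend on the classes. -/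
theorem bt_congr (hS : S.Ok) (hc : cd.Ok) {a a' b b' : cd.Mk}
    (ha : cd.kf (cd.phx a) = cd.kf (cd.phx a')) (hb : cd.kf (cd.phx b) = cd.kf (cd.phx b'))
    {v y : V1} (hv : v ∈ Fix S (cd.phx a)) (hy : y ∈ Fix S (cd.phx b)) :
    bt hc a b v y = bt hc a' b' v y := by
  classical
  have hv' : v ∈ Fix S (cd.phx a') := by rw [← Fix_congr hc ha]; exact hv
  have hy' : y ∈ Fix S (cd.phx b') := by rw [← Fix_congr hc hb]; exact hy
  have key : ∀ {x x' : cd.Mk} {w : V1}, cd.kf (cd.phx x) = cd.kf (cd.phx x') →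
      w ∈ Fix S (cd.phx x) → ∀ u, u ∉ Set.range cd.pl →
      ∃ z, S.loc u (cd.bex x w) = S.loc u (cd.bex x' w) + S.cob u z := by
    intro x x' w hk hw u hu
    obtain ⟨z, hz⟩ := (hc.kf_bad x x' hk u hu).2 w hw
    refine ⟨z, Prod.ext ?_ ?_⟩
    · exact sub_eq_iff_eq_add'.1 (hz _ (hS.sg_mem u))
    · exact sub_eq_iff_eq_add'.1 (hz _ (hS.phi_mem u))
  refine Finset.sum_congr rfl fun u hu => ?_
  have hu' : u ∉ Set.range cd.pl := by
    rw [Set.Finite.mem_toFinset] at hu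
    exact hu
  obtain ⟨z1, hz1⟩ := key ha hv u hu'
  obtain ⟨z2, hz2⟩ := key hb hy u hu'
  have c1 := loc_mem_CP (bex_coc hc (x := a') hv') u
  have c2 := loc_mem_CP (bex_coc hc (x := b') hy') u
  rw [hz1, hz2, (S.sy u).map_add, LinearMap.add_apply, map_add, map_add, hS.sy_cob _ _ c1,
    sy_cob_left hS _ c2, hS.sy_cob _ _ (cob_mem_CP hS u z1), add_zero, add_zero, add_zero]

open Classical in
/-- The reciprocity function. -/
noncomputable def RR (hc : cd.Ok) (t t' : cd.Kf) (v y : V1) : ZMod l :=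
  if h : ∃ ab : cd.Mk × cd.Mk, cd.kf (cd.phx ab.1) = t ∧ cd.kf (cd.phx ab.2) = t' then
    bt hc h.choose.1 h.choose.2 v y else 0

theorem RR_eq (hS : S.Ok) (hc : cd.Ok) {a b : cd.Mk} (hab : a.1 ≠ b.1) {v y : V1}
    (hv : v ∈ Fix S (cd.phx a)) (hy : y ∈ Fix S (cd.phx b)) :
    mS hc a (cd.phx b) y v =
      -(S.se * RR hc (cd.kf (cd.phx a)) (cd.kf (cd.phx b)) v y) +
        S.se * mS hc b (cd.phx a) v y := by
  have h : ∃ ab : cd.Mk × cd.Mk, cd.kf (cd.phx ab.1) = cd.kf (cd.phx a) ∧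
      cd.kf (cd.phx ab.2) = cd.kf (cd.phx b) := ⟨(a, b), rfl, rfl⟩
  have h1 := recip_sym hS hc hab hv hy
  have h2 := se_sq hS
  rw [RR, dif_pos h, ← bt_congr hS hc h.choose_spec.1.symm h.choose_spec.2.symm hv hy]
  linear_combination S.se * h1 - mS hc a (cd.phx b) y v * h2

open Classical in
/-- The functional of the unramified cocycles. -/
noncomputable def zzS (cd : CData S X) (t : cd.Kf) (v : V1) :
    (Fin cd.h → ZMod l) →ₗ[ZMod l] ZMod l :=
  if h : ∃ s, cd.kf s = t then (S.e v) ∘ₗ (LinearMap.proj h.choose) ∘ₗ cd.hb else 0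

theorem zzS_apply (hS : S.Ok) (hc : cd.Ok) {s : G} {v : V1} (hv : v ∈ Fix S s)
    (z : Fin cd.h → ZMod l) : zzS cd (cd.kf s) v z = S.e v (cd.hb z s) := by
  have h : ∃ s', cd.kf s' = cd.kf s := ⟨s, rfl⟩
  rw [zzS, dif_pos h]
  change S.e v (cd.hb z h.choose) = _
  obtain ⟨z', hz'⟩ := hc.kf_coc _ (hb_coc hc z) (hb_unr hc z) s h.choose
    h.choose_spec.symm
  have h1 : cd.hb z s = cd.hb z h.choose + (S.ac s z' - z') := by
    rw [← hz']
    abel
  rw [h1, map_add, e_sub hS hv, add_zero]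

end Pool.Agent.SmL.J
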