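import Pool.Agent.Lib.SmL.J.Count
import Pool.Agent.Lib.SmL.J.Ech

/-!
SMITH-L (odd prime `l`), block J: the data of a grid, the explicit
Selmer group of a family of places and the moment theorem (independent families of codes).
-/

set_option autoImplicit false

open Module

namespace Pool.Agent.SmL.J

/-- The data of a grid of places: positions `j < ns` carry one fixed (small) place, the positions
`ns ≤ j < M` carry the finite sets `X j`. `u` = the exponents, `s` = the sign of the form. -/
structure GD (l : ℕ) (V Th α Z : Type) [AddCommGroup V] [Module (ZMod l) V] [AddCommGroup Z]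
    [Module (ZMod l) Z] where
  e : ℕ → V →ₗ[ZMod l] V →ₗ[ZMod l] ZMod l
  F : Th → Submodule (ZMod l) V
  ty : α → Th
  m : α → α → V →ₗ[ZMod l] V →ₗ[ZMod l] ZMod l
  ll : α → α → ZMod l
  u : ℕ → ZMod l
  s : ZMod l
  self : ℕ → α → V → V →ₗ[ZMod l] ZMod l
  zz : Th → V → Z →ₗ[ZMod l] ZMod l
  R : Th → Th → V → V → ZMod l
  R' : Th → Th → ZMod l
  X : ℕ → Set α
  ns : ℕ
  M : ℕ
  hns : ns ≤ M
  hX : ∀ j, (X j).Finite
  recip : ∀ i j, i < j → ∀ a ∈ X i, ∀ b ∈ X j, ∀ v ∈ F (ty a), ∀ y ∈ F (ty b),
    m b a y v = R (ty a) (ty b) v y + s * m a b v y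
  recip' : ∀ i j, i < j → ∀ a ∈ X i, ∀ b ∈ X j, ll a b = R' (ty a) (ty b) + ll b a
  small : ∀ j < ns, Nat.card (X j) ≤ 1
  c : ℕ → Th → ℝ
  c0 : ∀ j t, 0 ≤ c j t
  NI : ∀ j, ns ≤ j → j < M → ∀ (p : Fin j → α) (ts : Fin j → Th),
    (∀ i : Fin j, p i ∈ X i ∧ ty (p i) = ts i) → ∀ (t : Th)
    (u : (i : Fin j) → RF (F t) (F (ts i))) (ε : Fin j → ZMod l),
    (Nat.card {a : α // a ∈ X j ∧ ty a = t ∧ ∀ i, (m a (p i)).domRestrict₁₂ (F t) (F (ts i)) = u i ∧
      ll a (p i) = ε i} : ℝ) * ((l : ℝ) ^ j * ∏ i : Fin j, (Nat.card (RF (F t) (F (ts i))) : ℝ)) ≤ c j t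

variable {l : ℕ} {V Th α Z : Type} [AddCommGroup V] [Module (ZMod l) V] [AddCommGroup Z]
  [Module (ZMod l) Z]

namespace GD

variable (G : GD l V Th α Z)

/-- Codes. -/
abbrev Cod : Type := Z × (Fin G.M → V)

/-- The equation at the place `q`. -/
def equ (p : Fin G.M → α) (c : G.Cod) (q : Fin G.M) (v : V) : ZMod l :=
  G.zz (G.ty (p q)) v c.1 + G.self q (p q) v (c.2 q) +
    ∑ q' : Fin G.M, (if q' = q then 0 else
      G.m (p q) (p q') v (c.2 q') + G.u q' * G.ll (p q) (p q') * G.e q v (c.2 q))

/-- The explicit Selmer group of the family `p` of places. -/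
def Selp (p : Fin G.M → α) : Submodule (ZMod l) G.Cod where
  carrier := {c | (∀ j, c.2 j ∈ G.F (G.ty (p j))) ∧
    ∀ q, ∀ v ∈ G.F (G.ty (p q)), G.equ p c q v = 0}
  add_mem' := by
    rintro a b ⟨ha, ha'⟩ ⟨hb, hb'⟩
    refine ⟨fun j => add_mem (ha j) (hb j), fun q v hv => ?_⟩
    have h : G.equ p (a + b) q v = G.equ p a q v + G.equ p b q v := by
      unfold equ
      have h1 : ∑ q' : Fin G.M, (if q' = q then 0 else
          G.m (p q) (p q') v ((a + b).2 q') + G.u q' * G.ll (p q) (p q') * G.e q v ((a + b).2 q)) =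
          ∑ q' : Fin G.M, (if q' = q then 0 else
            G.m (p q) (p q') v (a.2 q') + G.u q' * G.ll (p q) (p q') * G.e q v (a.2 q)) +
          ∑ q' : Fin G.M, (if q' = q then 0 else
            G.m (p q) (p q') v (b.2 q') + G.u q' * G.ll (p q) (p q') * G.e q v (b.2 q)) := by
        rw [← Finset.sum_add_distrib]
        refine Finset.sum_congr rfl fun q' _ => ?_
        split_ifs
        · rw [add_zero]
        · simp only [Prod.snd_add, Pi.add_apply, map_add]
          ring
      rw [h1]
      simp only [Prod.fst_add, Prod.snd_add, Pi.add_apply, map_add]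
      ring
    rw [h, ha' q v hv, hb' q v hv, add_zero]
  zero_mem' := by
    refine ⟨fun j => zero_mem _, fun q v _ => ?_⟩
    unfold equ
    simp
  smul_mem' := by
    rintro s a ⟨ha, ha'⟩
    refine ⟨fun j => Submodule.smul_mem _ _ (ha j), fun q v hv => ?_⟩
    have h : G.equ p (s • a) q v = s * G.equ p a q v := by
      unfold equ
      rw [mul_add, mul_add, Finset.mul_sum]
      congr 1
      · simp
      · refine Finset.sum_congr rfl fun q' _ => ?_
        split_ifs
        · rw [mul_zero]
        · simp only [Prod.smul_snd, Pi.smul_apply, map_smul, smul_eq_mul]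
          ring
    rw [h, ha' q v hv, mul_zero]

theorem mem_Selp {p : Fin G.M → α} {c : G.Cod} : c ∈ G.Selp p ↔
    (∀ j, c.2 j ∈ G.F (G.ty (p j))) ∧ ∀ q, ∀ v ∈ G.F (G.ty (p q)), G.equ p c q v = 0 := Iff.rfl

variable {I : Type} [Fintype I]

/-- Independence on the large places. -/
def IndL (W : I → Fin G.M → V) : Prop :=
  ∀ a : I → ZMod l, (∀ j : Fin G.M, G.ns ≤ j → ∑ k, a k • W k j = 0) → a = 0

/-- Weight of a family of types. -/
noncomputable def wt (j : ℕ) (t : Th) : ℝ :=
  open Classical in if j < G.ns then (if ∃ a ∈ G.X j, G.ty a = t then 1 else 0) else G.c j t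

theorem wt_nonneg (j : ℕ) (t : Th) : 0 ≤ G.wt j t := by
  unfold wt
  split_ifs
  · exact zero_le_one
  · exact le_rfl
  · exact G.c0 j t

/-- Echelon form with the tops `top`. -/
def EchT (top : I → Fin G.M) (x : I → Fin G.M → V) : Prop :=
  (∀ i, G.ns ≤ top i) ∧ (∀ i j, top i < j → x i j = 0) ∧
    ∀ t, LinearIndependent (ZMod l) (fun i : {i // top i = t} => x i t)

/-- The number of families of places for one family of codes in echelon form. -/
theorem fib_le [Fact l.Prime] [Finite V] [Inhabited Th] (top : I → Fin G.M) (t : Fin G.M → Th) (g : I → Z)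
    (x : I → Fin G.M → V) (hxF : ∀ i j, x i j ∈ G.F (t j)) (hE : G.EchT top x) :
    (Nat.card {p : Fin G.M → α // (∀ j : Fin G.M, p j ∈ G.X j) ∧ (∀ j, G.ty (p j) = t j) ∧
      ∀ i, (g i, x i) ∈ G.Selp p} : ℝ) * ∏ j, (Nat.card (G.F (t j)) : ℝ) ^ Fintype.card I ≤
      (∏ j : Fin G.M, G.wt j (t j)) * (Nat.card V : ℝ) ^ (Fintype.card I * Fintype.card I) := by
  classical
  let t' : ℕ → Th := fun j => if h : j < G.M then t ⟨j, h⟩ else default
  have ht' : ∀ j : Fin G.M, t' j = t j := fun j => by simp [t']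
  let x' : I → ℕ → V := fun i j => if h : j < G.M then x i ⟨j, h⟩ else 0
  have hx' : ∀ i (j : Fin G.M), x' i j = x i j := fun i j => by simp [x']
  let C : CD l V α I :=
    { e := G.e
      F := fun j => G.F (t' j)
      X := fun j => {a | a ∈ G.X j ∧ G.ty a = t' j ∧ j < G.M}
      m := G.m
      ll := G.ll
      u := G.u
      s := G.s
      self := fun j a v y => G.self j a v y
      self0 := fun j a v => map_zero _
      z := fun i j v => G.zz (t' j) v (g i)
      R := fun i j => G.R (t' i) (t' j)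
      R' := fun i j => G.R' (t' i) (t' j)
      x := x'
      top := fun i => top i
      ns := G.ns
      c := fun j => G.c j (t' j)
      c0 := fun j => G.c0 _ _
      hX := fun j => (G.hX j).subset fun a ha => ha.1
      hx := fun i j => by
        by_cases h : j < G.M
        · have h1 := hxF i ⟨j, h⟩
          simp only [x', t', h, dif_pos]
          exact h1
        · simp only [x', h, dif_neg, not_false_iff]
          exact zero_mem _
      htop := hE.1
      hx0 := fun i j hij => by
        by_cases h : j < G.M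
        · have h1 := hE.2.1 i ⟨j, h⟩ (Fin.lt_def.2 hij)
          simp only [x', h, dif_pos]
          exact h1
        · simp only [x', h, dif_neg, not_false_iff]
      hind := fun s => by
        by_cases h : s < G.M
        · have h1 := hE.2.2 ⟨s, h⟩
          have h2 := h1.comp (fun i : {i // (top i : ℕ) = s} =>
            (⟨i.1, Fin.ext i.2⟩ : {i // top i = ⟨s, h⟩})) (by
              intro a b hab
              exact Subtype.ext (congrArg (fun t : {i // top i = ⟨s, h⟩} => (t : I)) hab))
          simpa [x', h, Function.comp_def] using h2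
        · have : IsEmpty {i // (top i : ℕ) = s} := ⟨fun i => h (i.2 ▸ (top i.1).2)⟩
          exact linearIndependent_empty_type
      recip := fun i j hij a ha b hb v hv y hy => by
        have h := G.recip i j hij a ha.1 b hb.1 v (by rw [ha.2.1]; exact hv) y
          (by rw [hb.2.1]; exact hy)
        rw [h, ha.2.1, hb.2.1]
      recip' := fun i j hij a ha b hb => by
        rw [G.recip' i j hij a ha.1 b hb.1, ha.2.1, hb.2.1]
      small := fun j hj => by
        have := (G.hX j).to_subtype
        refine le_trans ?_ (G.small j hj)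
        exact Nat.card_mono (G.hX j) (fun a ha => ha.1)
      NI := fun j hj p hp u ε => by
        by_cases h : j < G.M
        · have h1 := G.NI j hj h p (fun i => t' i) (fun i => ⟨(hp i).1, (hp i).2.1⟩) (t' j) u ε
          refine le_trans (le_of_eq ?_) h1
          congr 2
          refine Nat.card_congr (Equiv.subtypeEquivRight fun a => ?_)
          constructor
          · rintro ⟨⟨h2, h3, _⟩, h4⟩
            exact ⟨h2, h3, h4⟩
          · rintro ⟨h2, h3, h4⟩
            exact ⟨⟨h2, h3, h⟩, h4⟩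
        · have h1 : IsEmpty {a : α // a ∈ {a | a ∈ G.X j ∧ G.ty a = t' j ∧ j < G.M} ∧
              ∀ i, (G.m a (p i)).domRestrict₁₂ (G.F (t' j)) (G.F (t' i)) = u i ∧
              G.ll a (p i) = ε i} := ⟨fun a => h a.2.1.2.2⟩
          rw [Nat.card_of_isEmpty, Nat.cast_zero, zero_mul]
          exact G.c0 _ _ }
  have hmain := C.count_main G.M G.hns 0
  -- the product of the targets
  have hBB : (∏ j : Fin G.M, (Nat.card (G.F (t j)) : ℝ) ^ Fintype.card I) ≤
      (C.BB G.M : ℝ) * (Nat.card V : ℝ) ^ (Fintype.card I * Fintype.card I) := by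
    have h1 : Nat.card {i // C.top i < G.M} = Fintype.card I := by
      rw [← Nat.card_eq_fintype_card]
      exact Nat.card_congr (Equiv.subtypeUnivEquiv fun i => (top i).2)
    have h2 : (C.BB G.M : ℝ) = ∏ q : Fin G.M, if C.NP q then
        (Nat.card (G.F (t q)) : ℝ) ^ Fintype.card I else 1 := by
      unfold CD.BB
      rw [h1, Nat.cast_prod, Finset.prod_filter,
        ← Fin.prod_univ_eq_prod_range (fun q => if C.NP q then
          ((Nat.card (C.F q) ^ Fintype.card I : ℕ) : ℝ) else 1)]
      refine Finset.prod_congr rfl fun q _ => ?_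
      have h3 : C.F q = G.F (t q) := congrArg G.F (ht' q)
      rw [h3]
      push_cast
      rfl
    have h3 : (∏ j : Fin G.M, (Nat.card (G.F (t j)) : ℝ) ^ Fintype.card I) =
        (∏ q : Fin G.M, if C.NP q then (Nat.card (G.F (t q)) : ℝ) ^ Fintype.card I else 1) *
        ∏ q : Fin G.M, if C.NP q then 1 else (Nat.card (G.F (t q)) : ℝ) ^ Fintype.card I := by
      rw [← Finset.prod_mul_distrib]
      refine Finset.prod_congr rfl fun q _ => ?_
      split_ifs <;> simp
    rw [h3, h2]
    refine mul_le_mul_of_nonneg_left ?_ (Finset.prod_nonneg fun q _ => by positivity)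
    rw [← Finset.prod_filter_mul_prod_filter_not Finset.univ (fun q : Fin G.M => C.NP q)]
    have h4 : ∏ q ∈ Finset.univ.filter (fun q : Fin G.M => C.NP q),
        (if C.NP q then (1 : ℝ) else (Nat.card (G.F (t q)) : ℝ) ^ Fintype.card I) = 1 := by
      refine Finset.prod_eq_one fun q hq => ?_
      rw [if_pos (Finset.mem_filter.1 hq).2]
    rw [h4, one_mul]
    have hV1 : (1 : ℝ) ≤ Nat.card V := by exact_mod_cast Nat.card_pos
    calc ∏ q ∈ Finset.univ.filter (fun q : Fin G.M => ¬ C.NP q),
          (if C.NP q then (1 : ℝ) else (Nat.card (G.F (t q)) : ℝ) ^ Fintype.card I) ≤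
          ∏ _q ∈ Finset.univ.filter (fun q : Fin G.M => ¬ C.NP q),
            (Nat.card V : ℝ) ^ Fintype.card I := by
          refine Finset.prod_le_prod (fun q _ => by positivity) fun q hq => ?_
          rw [if_neg (Finset.mem_filter.1 hq).2]
          refine pow_le_pow_left₀ (Nat.cast_nonneg _) ?_ _
          exact_mod_cast Nat.card_le_card_of_injective _ (Submodule.subtype_injective _)
      _ = ((Nat.card V : ℝ) ^ Fintype.card I) ^
            (Finset.univ.filter (fun q : Fin G.M => ¬ C.NP q)).card := Finset.prod_const _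
      _ ≤ ((Nat.card V : ℝ) ^ Fintype.card I) ^ Fintype.card I := by
          refine pow_le_pow_right₀ (one_le_pow₀ hV1) ?_
          have h5 : Finset.univ.filter (fun q : Fin G.M => ¬ C.NP q) ⊆ Finset.univ.image top := by
            intro q hq
            have h6 := (Finset.mem_filter.1 hq).2
            unfold CD.NP at h6
            push Not at h6
            obtain ⟨i, hi⟩ := h6
            exact Finset.mem_image.2 ⟨i, Finset.mem_univ _, Fin.ext hi⟩
          exact (Finset.card_le_card h5).trans Finset.card_image_le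
      _ = _ := by rw [← pow_mul]
  -- the number of families
  have hle : Nat.card {p : Fin G.M → α // (∀ j : Fin G.M, p j ∈ G.X j) ∧
      (∀ j, G.ty (p j) = t j) ∧ ∀ i, (g i, x i) ∈ G.Selp p} ≤
      Nat.card {p : Fin G.M → α // C.Sol G.M 0 p} := by
    have hf := C.finite_pi G.M (C.Sol G.M 0) fun p hp => hp.1
    have hsol : ∀ p : Fin G.M → α, (∀ j : Fin G.M, p j ∈ G.X j) → (∀ j, G.ty (p j) = t j) →
        (∀ i, (g i, x i) ∈ G.Selp p) → C.Sol G.M 0 p := by
      intro p h1 h2 h3
      refine ⟨fun j => ⟨h1 j, (h2 j).trans (ht' j).symm, j.2⟩, fun i _ q _ v hv => ?_⟩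
      have hv' : v ∈ G.F (G.ty (p q)) := by
        rw [h2 q, ← ht' q]
        exact hv
      have h4 := ((G.mem_Selp).1 (h3 i)).2 q v hv'
      rw [← h4]
      change eqn G.e G.m G.ll G.u (fun j a v y => G.self j a v y)
        (fun i j v => G.zz (t' j) v (g i)) x' 0 p i q v = _
      unfold eqn GD.equ
      simp only [hx', ht', h2, Pi.zero_apply, zero_mul, add_zero]
    exact Nat.card_le_card_of_injective
      (fun p : {p : Fin G.M → α // (∀ j : Fin G.M, p j ∈ G.X j) ∧
        (∀ j, G.ty (p j) = t j) ∧ ∀ i, (g i, x i) ∈ G.Selp p} =>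
        (⟨p.1, hsol p.1 p.2.1 p.2.2.1 p.2.2.2⟩ : {p : Fin G.M → α // C.Sol G.M 0 p})) (by
          intro p p' h
          exact Subtype.ext (congrArg (fun s : {p : Fin G.M → α // C.Sol G.M 0 p} => s.1) h))
  by_cases hemp : IsEmpty {p : Fin G.M → α // (∀ j : Fin G.M, p j ∈ G.X j) ∧
      (∀ j, G.ty (p j) = t j) ∧ ∀ i, (g i, x i) ∈ G.Selp p}
  · rw [Nat.card_of_isEmpty, Nat.cast_zero, zero_mul]
    exact mul_nonneg (Finset.prod_nonneg fun j _ => G.wt_nonneg _ _) (by positivity)
  · rw [not_isEmpty_iff] at hemp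
    obtain ⟨⟨p0, hp0, hp0', _⟩⟩ := hemp
    have hw : ∏ j ∈ Finset.Ico G.ns G.M, C.c j = ∏ j : Fin G.M, G.wt j (t j) := by
      have h1 : ∏ j : Fin G.M, G.wt j (t j) =
          ∏ j ∈ Finset.range G.M, (if j < G.ns then 1 else C.c j) := by
        rw [← Fin.prod_univ_eq_prod_range (fun j => if j < G.ns then (1 : ℝ) else C.c j)]
        refine Finset.prod_congr rfl fun j _ => ?_
        unfold wt
        by_cases hj : (j : ℕ) < G.ns
        · rw [if_pos hj, if_pos hj, if_pos ⟨p0 j, hp0 j, hp0' j⟩]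
        · rw [if_neg hj, if_neg hj]
          exact congrArg (G.c j) (ht' j).symm
      rw [h1, Finset.range_eq_Ico, ← Finset.prod_Ico_consecutive _ (Nat.zero_le G.ns) G.hns]
      have h2 : ∏ j ∈ Finset.Ico 0 G.ns, (if j < G.ns then (1 : ℝ) else C.c j) = 1 :=
        Finset.prod_eq_one fun j hj => if_pos (Finset.mem_Ico.1 hj).2
      rw [h2, one_mul]
      refine Finset.prod_congr rfl fun j hj => ?_
      rw [if_neg (not_lt.2 (Finset.mem_Ico.1 hj).1)]
    rw [hw] at hmain
    have hN : (Nat.card {p : Fin G.M → α // (∀ j : Fin G.M, p j ∈ G.X j) ∧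
      (∀ j, G.ty (p j) = t j) ∧ ∀ i, (g i, x i) ∈ G.Selp p} : ℝ) ≤
        Nat.card {p : Fin G.M → α // C.Sol G.M 0 p} := by exact_mod_cast hle
    calc _ ≤ (Nat.card {p : Fin G.M → α // C.Sol G.M 0 p} : ℝ) *
          ((C.BB G.M : ℝ) * (Nat.card V : ℝ) ^ (Fintype.card I * Fintype.card I)) :=
          mul_le_mul hN hBB (Finset.prod_nonneg fun j _ => by positivity) (Nat.cast_nonneg _)
      _ = (Nat.card {p : Fin G.M → α // C.Sol G.M 0 p} : ℝ) * C.BB G.M *
          (Nat.card V : ℝ) ^ (Fintype.card I * Fintype.card I) := by ring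
      _ ≤ _ := mul_le_mul_of_nonneg_right hmain (by positivity)

end GD

end Pool.Agent.SmL.J
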