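import Pool.Agent.Lib.SmL.J.Clf

/-!
SMITH-L (odd prime `l`), block J: the upper bound NI for the number of
marked primes with prescribed symbols, from Chebotarev.
-/

set_option autoImplicit false

open Module Finset

namespace Pool.Agent.SmL.J

variable {l : ℕ} [Fact l.Prime] {A G V V1 Pl : Type} [CommRing A] [Group G] [AddCommGroup V]
  [Module A V] [DistribMulAction G V] [AddCommGroup V1] [Module (ZMod l) V1]
  {S : Sys l A G V V1 Pl} {X : PSys} {cd : CData S X}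

/-- The subgroup on which everything attached to the primes `q i` vanishes. -/
def Nq (hc : cd.Ok) (N1 : Subgroup G) {j : ℕ} (q : Fin j → cd.Mk) : Subgroup G where
  carrier := {n | n ∈ N1 ∧ n ∈ S.GN ∧ ∀ i, (∀ w, S.ac (S.phi (cd.pl (q i).1)) w = w →
    cd.be (q i).1 w n = 0) ∧ cd.ch (q i).1 n = 0}
  one_mem' := ⟨one_mem _, one_mem _, fun i => ⟨fun w hw => Sys.cocG_one (hc.be_coc _ _ hw).2,
    homG_one (hc.ch_hom _).2⟩⟩
  mul_mem' := by
    rintro n n' ⟨h1, h2, h3⟩ ⟨h1', h2', h3'⟩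
    refine ⟨mul_mem h1 h1', mul_mem h2 h2', fun i => ⟨fun w hw => ?_, ?_⟩⟩
    · rw [(hc.be_coc _ _ hw).2, (h3 i).1 w hw, (h3' i).1 w hw, map_zero, add_zero]
    · rw [(hc.ch_hom _).2, (h3 i).2, (h3' i).2, add_zero]
  inv_mem' := by
    rintro n ⟨h1, h2, h3⟩
    refine ⟨inv_mem h1, inv_mem h2, fun i => ⟨fun w hw => ?_, ?_⟩⟩
    · have h4 := (hc.be_coc _ _ hw).2 n⁻¹ n
      rw [inv_mul_cancel, Sys.cocG_one (hc.be_coc _ _ hw).2, (h3 i).1 w hw, map_zero,
        add_zero] at h4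
      exact h4.symm
    · have h4 := (hc.ch_hom (q i).1).2 n⁻¹ n
      rw [inv_mul_cancel, homG_one (hc.ch_hom _).2, (h3 i).2, add_zero] at h4
      exact h4.symm

theorem mem_Nq {hc : cd.Ok} {N1 : Subgroup G} {j : ℕ} {q : Fin j → cd.Mk} {n : G} :
    n ∈ Nq hc N1 q ↔ n ∈ N1 ∧ n ∈ S.GN ∧ ∀ i, (∀ w, S.ac (S.phi (cd.pl (q i).1)) w = w →
    cd.be (q i).1 w n = 0) ∧ cd.ch (q i).1 n = 0 := Iff.rfl

theorem Nq_normal (hc : cd.Ok) {N1 : Subgroup G} (hN1 : N1.Normal) {j : ℕ} (q : Fin j → cd.Mk) :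
    (Nq hc N1 q).Normal := by
  refine ⟨fun n hn g => ?_⟩
  obtain ⟨h1, h2, h3⟩ := hn
  refine ⟨hN1.conj_mem n h1 g, (MonoidHom.normal_ker S.ac).conj_mem n h2 g,
    fun i => ⟨fun w hw => ?_, ?_⟩⟩
  · rw [coc_conj (hc.be_coc _ _ hw).2, (h3 i).1 w hw, mem_GN.1 h2]
    simp
  · rw [homG_conj (hc.ch_hom _).2, (h3 i).2]

theorem Nq_bex {hc : cd.Ok} {N1 : Subgroup G} {j : ℕ} {q : Fin j → cd.Mk} {n : G}
    (hn : n ∈ Nq hc N1 q) (i : Fin j) {y : V1} (hy : y ∈ Fix S (cd.phx (q i))) :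
    cd.bex (q i) y n = 0 := (hn.2.2 i).1 _ ((fx_iff (q i) y).1 hy)

theorem Nq_open (hS : S.Ok) (hc : cd.Ok) {N1 : Subgroup G} (hN1 : N1 ∈ S.NN) {j : ℕ}
    (q : Fin j → cd.Mk) : ∃ N0 ∈ S.NN, N0 ≤ Nq hc N1 q := by
  classical
  have := hS.fin1
  obtain ⟨Na, hNa, ha⟩ := Sys.ac_fin hS
  have hb : ∀ i : Fin j × V1, S.TF (fun s => if S.ac (S.phi (cd.pl (q i.1).1)) i.2 = i.2 then
      cd.be (q i.1).1 i.2 s else 0) := by
    intro i
    by_cases h : S.ac (S.phi (cd.pl (q i.1).1)) i.2 = i.2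
    · simp only [h, if_true]
      exact (hc.be_coc _ _ h).1
    · simp only [h, if_false]
      exact Sys.TF_const hS 0
  obtain ⟨Nb, hNb, hb'⟩ := tf_pi hS hb
  obtain ⟨Nc, hNc, hc'⟩ := tf_pi hS (fun i : Fin j => (hc.ch_hom (q i).1).1)
  refine ⟨N1 ⊓ Na ⊓ Nb ⊓ Nc, hS.inf_mem _ (hS.inf_mem _ (hS.inf_mem _ hN1 _ hNa) _ hNb) _ hNc,
    fun n hn => ?_⟩
  obtain ⟨⟨⟨h1, h2⟩, h3⟩, h4⟩ := hn
  refine ⟨h1, mem_GN.2 (ha n h2), fun i => ⟨fun w hw => ?_, ?_⟩⟩
  · have h5 := congrFun (hb' 1 n h3) (i, w)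
    simp only [hw, if_true, one_mul] at h5
    rw [h5, Sys.cocG_one (hc.be_coc _ _ hw).2]
  · have h5 := congrFun (hc' 1 n h4) i
    simp only [one_mul] at h5
    rw [h5, homG_one (hc.ch_hom _).2]

theorem GN_index (hS : S.Ok) : S.GN.index ≠ 0 := by
  have := hS.fin1
  have : Finite (V1 ≃ₗ[ZMod l] V1) := Finite.of_injective (fun f => (f : V1 → V1)) (by
    intro f g h
    exact LinearEquiv.ext fun x => congrFun h x)
  rw [Sys.GN, Subgroup.index_ker]
  exact Nat.card_pos.ne'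

theorem Nq_index (hS : S.Ok) (hc : cd.Ok) {N1 : Subgroup G} (hN1 : N1.index ≠ 0) {j : ℕ}
    (q : Fin j → cd.Mk) : (Nq hc N1 q).index ≠ 0 ∧
      (Nq hc N1 q).index ≤ (Nat.card V1 ^ Nat.card V1 * l) ^ j * (N1 ⊓ S.GN).index := by
  classical
  have := hS.fin1
  set N2 : Subgroup G := N1 ⊓ S.GN with hN2
  have hle : Nq hc N1 q ≤ N2 := fun n hn => ⟨hn.1, hn.2.1⟩
  have hN2i : N2.index ≠ 0 := Subgroup.index_inf_ne_zero hN1 (GN_index hS)
  let Φ : N2 →* Multiplicative (Fin j → (V1 → V1) × ZMod l) :=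
    { toFun := fun n => Multiplicative.ofAdd (fun i => (fun w =>
        if S.ac (S.phi (cd.pl (q i).1)) w = w then cd.be (q i).1 w n else 0, cd.ch (q i).1 n))
      map_one' := by
        rw [← ofAdd_zero]
        congr 1
        funext i
        refine Prod.ext ?_ (homG_one (hc.ch_hom _).2)
        funext w
        change (if S.ac (S.phi (cd.pl (q i).1)) w = w then cd.be (q i).1 w 1 else 0) = 0
        split_ifs with h
        · exact Sys.cocG_one (hc.be_coc _ _ h).2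
        · rfl
      map_mul' := by
        intro n n'
        rw [← ofAdd_add]
        congr 1
        funext i
        refine Prod.ext ?_ ((hc.ch_hom _).2 _ _)
        funext w
        change (if S.ac (S.phi (cd.pl (q i).1)) w = w then cd.be (q i).1 w (n * n') else 0) =
          (if S.ac (S.phi (cd.pl (q i).1)) w = w then cd.be (q i).1 w n else 0) +
          (if S.ac (S.phi (cd.pl (q i).1)) w = w then cd.be (q i).1 w n' else 0)
        split_ifs with h
        · rw [(hc.be_coc _ _ h).2, mem_GN.1 n.2.2]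
          rfl
        · rw [add_zero] }
  have hker : (Nq hc N1 q).subgroupOf N2 = Φ.ker := by
    ext n
    rw [Subgroup.mem_subgroupOf, MonoidHom.mem_ker, mem_Nq]
    constructor
    · rintro ⟨_, _, h3⟩
      change Multiplicative.ofAdd _ = 1
      rw [← ofAdd_zero]
      congr 1
      funext i
      refine Prod.ext ?_ (h3 i).2
      funext w
      change (if S.ac (S.phi (cd.pl (q i).1)) w = w then cd.be (q i).1 w n else 0) = 0
      split_ifs with h
      · exact (h3 i).1 w h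
      · rfl
    · intro h
      have h' : (fun i => (fun w => if S.ac (S.phi (cd.pl (q i).1)) w = w then
          cd.be (q i).1 w (n : G) else 0, cd.ch (q i).1 (n : G)) : Fin j → (V1 → V1) × ZMod l) = 0 :=
        Multiplicative.ofAdd.injective (h.trans ofAdd_zero.symm)
      refine ⟨n.2.1, n.2.2, fun i => ⟨fun w hw => ?_, ?_⟩⟩
      · have h1 := congrFun (congrArg Prod.fst (congrFun h' i)) w
        simp only [hw, if_true] at h1
        exact h1
      · exact congrArg Prod.snd (congrFun h' i)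
  have hidx : (Nq hc N1 q).index = (Nq hc N1 q).relIndex N2 * N2.index :=
    (Subgroup.relIndex_mul_index hle).symm
  have hrel : (Nq hc N1 q).relIndex N2 = Nat.card Φ.range := by
    rw [Subgroup.relIndex, hker, Subgroup.index_ker]
  have hcard : Nat.card (Multiplicative (Fin j → (V1 → V1) × ZMod l)) =
      (Nat.card V1 ^ Nat.card V1 * l) ^ j := by
    rw [Nat.card_congr Multiplicative.toAdd, Nat.card_fun, Nat.card_prod, Nat.card_fun,
      Nat.card_zmod, Nat.card_fin]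
  have : Finite (Multiplicative (Fin j → (V1 → V1) × ZMod l)) :=
    Finite.of_equiv _ Multiplicative.ofAdd
  have hle2 : Nat.card Φ.range ≤ (Nat.card V1 ^ Nat.card V1 * l) ^ j := by
    rw [← hcard]
    exact Nat.card_le_card_of_injective _ Subtype.val_injective
  rw [hidx, hrel]
  exact ⟨mul_ne_zero Nat.card_pos.ne' hN2i, Nat.mul_le_mul_right _ hle2⟩

theorem card_RF_le [Finite V1] (A B : Submodule (ZMod l) V1) :
    Nat.card (RF A B) ≤ (l ^ Nat.card V1) ^ Nat.card V1 := by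
  have hl : 0 < l := (Fact.out : l.Prime).pos
  have h1 : Nat.card (RF A B) ≤ Nat.card (A → B → ZMod l) :=
    Nat.card_le_card_of_injective (fun f : RF A B => fun (v : A) (x : B) => f v x) (by
      intro f g h
      ext v x
      exact congrFun (congrFun h v) x)
  rw [Nat.card_fun, Nat.card_fun, Nat.card_zmod] at h1
  have hA : Nat.card A ≤ Nat.card V1 :=
    Nat.card_le_card_of_injective _ (Submodule.subtype_injective _)
  have hB : Nat.card B ≤ Nat.card V1 :=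
    Nat.card_le_card_of_injective _ (Submodule.subtype_injective _)
  calc Nat.card (RF A B) ≤ (l ^ Nat.card B) ^ Nat.card A := h1
    _ ≤ (l ^ Nat.card V1) ^ Nat.card A :=
        Nat.pow_le_pow_left (Nat.pow_le_pow_right hl hB) _
    _ ≤ _ := Nat.pow_le_pow_right (pow_pos hl _) hA

theorem sum_avf (cd : CData S X) (Pr : G → Prop) (T : Finset G) (f : G) :
    ∑ t ∈ T, avf cd Pr (f * t) =
      (∑ g ∈ cd.R, (Nat.card {τ : G // τ ∈ T ∧ Pr (g * (f * τ) * g⁻¹)} : ℝ)) / cd.R.card := by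
  classical
  unfold avf
  rw [← Finset.sum_div, Finset.sum_comm]
  congr 1
  refine Finset.sum_congr rfl fun g _ => ?_
  rw [← Finset.sum_filter, Finset.sum_const, nsmul_eq_mul, mul_one]
  congr 1
  refine (Nat.subtype_card _ fun τ => ?_).symm
  rw [Finset.mem_filter]

variable {Geo : Subgroup G} {fr : G} {q a C : ℕ}

/-- **NI**: the upper bound for the marked primes with prescribed symbols. -/
theorem NI_main (hS : S.Ok) (hc : cd.Ok) (hG : CData.GeoOk (S := S) Geo fr)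
    (hC : cd.Cheb Geo fr q a C) {N1 : Subgroup G} (hN1 : N1 ∈ S.NN) (hN1i : N1.index ≠ 0)
    (hsg : ∀ P, S.sg (cd.pl P) ∈ N1) (hN1k : ∀ s, ∀ n ∈ N1, cd.kf (s * n) = cd.kf s)
    {d : ℕ} (hd : 1 ≤ d) {E : Finset X.Pr} (hE : ∀ P, P ∈ E ↔ X.deg P = d) {j : ℕ}
    (p : Fin j → cd.Mk) (hp : Function.Injective fun i => (p i).1)
    (hpd : ∀ i, X.deg (p i).1 ≠ d) {r : ℕ} (hr : ∑ i, X.deg (p i).1 ≤ r) (t : cd.Kf)
    (w : (i : Fin j) → RF (FK cd t) (FK cd (cd.kf (cd.phx (p i)))) × ZMod l) :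
    (Nat.card (MkP cd d (fun s => cd.kf s = t ∧ ∀ i, sym hc t (p i) s = w i)) : ℝ) *
      Nat.card ((i : Fin j) → RF (FK cd t) (FK cd (cd.kf (cd.phx (p i)))) × ZMod l) ≤
    Nat.card (MkP cd d (fun s => cd.kf s = t)) +
      (1 + Nat.card ((i : Fin j) → RF (FK cd t) (FK cd (cd.kf (cd.phx (p i)))) × ZMod l)) *
      (cd.R.card * (C * ((((Nat.card V1 ^ Nat.card V1 * l) ^ j * (N1 ⊓ S.GN).index : ℕ) : ℝ) *
        (r + 1)) ^ a * √((q : ℝ) ^ d))) := by
  classical
  have hN1n := hS.normal N1 hN1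
  set N := Nq hc N1 p with hNdef
  have hNn : N.Normal := Nq_normal hc hN1n p
  obtain ⟨hNi, hNle⟩ := Nq_index hS hc hN1i p
  obtain ⟨T, hT, hT', _, hTne⟩ := exists_T Geo N hNi
  set B : Finset X.Pr := Finset.univ.image fun i => (p i).1 with hB
  have hBN : ∀ P, S.sg (cd.pl P) ∉ N → P ∈ B := by
    intro P hP
    by_contra hPB
    apply hP
    have hne : ∀ i, (p i).1 ≠ P := by
      intro i h
      exact hPB (Finset.mem_image.2 ⟨i, Finset.mem_univ _, h⟩)
    exact ⟨hsg P, mem_GN.2 (Sys.ac_sg hS (hc.pl_good P)), fun i =>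
      ⟨fun w hw => hc.be_unr _ _ _ (hne i).symm hw, hc.ch_unr _ _ (hne i).symm⟩⟩
  have hBr : X.degS B ≤ r := by
    rw [PSys.degS, hB, Finset.sum_image fun i _ i' _ h => hp h]
    exact hr
  have hBd : ∀ P ∈ B, X.deg P ≠ d := by
    intro P hP
    obtain ⟨i, _, rfl⟩ := Finset.mem_image.1 hP
    exact hpd i
  have hopen := Nq_open hS hc hN1 p
  have hkc : ∀ s, ∀ n ∈ S.GN, cd.kf (n * s * n⁻¹) = cd.kf s := hc.kf_conj
  have hkN : ∀ s, ∀ n ∈ N, cd.kf (s * n) = cd.kf s := fun s n hn => hN1k s n hn.1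
  have hsc : ∀ s, ∀ n ∈ S.GN, cd.kf s = t → ∀ i, sym hc t (p i) (n * s * n⁻¹) =
      sym hc t (p i) s := by
    intro s n hn hs i
    subst hs
    refine Prod.ext ?_ (homG_conj (hc.ch_hom _).2 _ _)
    ext v y
    have hv : (v : V1) ∈ Fix S s := by
      rw [← FK_kf hc]
      exact v.2
    have hy : (y : V1) ∈ Fix S (cd.phx (p i)) := by
      rw [← FK_kf hc]
      exact y.2
    exact mS_conj hS hc (p i) hn hv hy
  have hsN : ∀ s, ∀ n ∈ N, cd.kf s = t → ∀ i, sym hc t (p i) (s * n) = sym hc t (p i) s := by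
    intro s n hn hs i
    subst hs
    rw [sym_mul hS, sym_eq_zero hc _ (p i) (fun y hy => Nq_bex hn i hy) (hn.2.2 i).2, add_zero]
  have h1 := cheb_MkP hc hC (fun s => cd.kf s = t ∧ ∀ i, sym hc t (p i) s = w i) (fun s n hn => by
    rw [hkc s n hn]
    constructor
    · rintro ⟨h1, h2⟩
      exact ⟨h1, fun i => by rw [← h2 i, hsc s n hn h1 i]⟩
    · rintro ⟨h1, h2⟩
      exact ⟨h1, fun i => by rw [← h2 i, hsc s n hn h1 i]⟩) N hNn hopen (fun s n hn => by
    rw [hkN s n hn]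
    constructor
    · rintro ⟨h1, h2⟩
      exact ⟨h1, fun i => by rw [← h2 i, hsN s n hn h1 i]⟩
    · rintro ⟨h1, h2⟩
      exact ⟨h1, fun i => by rw [← h2 i, hsN s n hn h1 i]⟩) T hT hT' d r hd B hBN hBr hBd E hE
  have h2 := cheb_MkP hc hC (fun s => cd.kf s = t) (fun s n hn => by rw [hkc s n hn]) N hNn hopen
    (fun s n hn => by rw [hkN s n hn]) T hT hT' d r hd B hBN hBr hBd E hE
  -- comparison of the means
  set Pi0 : ℕ := Nat.card ((i : Fin j) → RF (FK cd t) (FK cd (cd.kf (cd.phx (p i)))) × ZMod l)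
    with hPi
  have h3 : (∑ τ ∈ T, avf cd (fun s => cd.kf s = t ∧ ∀ i, sym hc t (p i) s = w i)
      (fr ^ d * τ)) * Pi0 ≤ ∑ τ ∈ T, avf cd (fun s => cd.kf s = t) (fr ^ d * τ) := by
    rw [sum_avf, sum_avf, div_mul_eq_mul_div, Finset.sum_mul]
    refine div_le_div_of_nonneg_right (Finset.sum_le_sum fun g _ => ?_) (Nat.cast_nonneg _)
    have h4 := uni_card hS hc hG N1 hN1n hsg hN1k p hp t N hNn (fun n hn => hn.1)
      (fun n hn => hn.2.1) (fun i n hn y hy => Nq_bex hn i hy) (fun i n hn => (hn.2.2 i).2)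
      T hT hT' g (fr ^ d) w
    exact_mod_cast h4
  set err0 : ℝ := cd.R.card * (C * ((N.index : ℝ) * (r + 1)) ^ a * √((q : ℝ) ^ d)) with herr0
  set err : ℝ := cd.R.card * (C * ((((Nat.card V1 ^ Nat.card V1 * l) ^ j *
    (N1 ⊓ S.GN).index : ℕ) : ℝ) * (r + 1)) ^ a * √((q : ℝ) ^ d)) with herr
  have herrle : err0 ≤ err := by
    rw [herr0, herr]
    refine mul_le_mul_of_nonneg_left (mul_le_mul_of_nonneg_right (mul_le_mul_of_nonneg_left
      (pow_le_pow_left₀ (by positivity) (mul_le_mul_of_nonneg_right ?_ (by positivity)) _)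
      (Nat.cast_nonneg _)) (Real.sqrt_nonneg _)) (Nat.cast_nonneg _)
    exact_mod_cast hNle
  have h5 := (abs_le.1 h1).2
  have h6 := (abs_le.1 h2).1
  have hTpos : (0 : ℝ) < T.card := by exact_mod_cast Finset.card_pos.2 hTne
  have hPi0 : (0 : ℝ) ≤ Pi0 := Nat.cast_nonneg _
  have hRE : (0 : ℝ) ≤ cd.R.card * E.card := by positivity
  have h7 : (cd.R.card * E.card : ℝ) * ((∑ τ ∈ T,
      avf cd (fun s => cd.kf s = t ∧ ∀ i, sym hc t (p i) s = w i) (fr ^ d * τ)) / T.card) * Pi0 ≤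
      (cd.R.card * E.card : ℝ) * ((∑ τ ∈ T, avf cd (fun s => cd.kf s = t) (fr ^ d * τ)) /
        T.card) := by
    rw [mul_assoc, div_mul_eq_mul_div]
    exact mul_le_mul_of_nonneg_left (div_le_div_of_nonneg_right h3 hTpos.le) hRE
  have h8 : (Nat.card (MkP cd d (fun s => cd.kf s = t ∧ ∀ i, sym hc t (p i) s = w i)) : ℝ) * Pi0 ≤
      ((cd.R.card * E.card : ℝ) * ((∑ τ ∈ T,
      avf cd (fun s => cd.kf s = t ∧ ∀ i, sym hc t (p i) s = w i) (fr ^ d * τ)) / T.card) + err0) *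
        Pi0 := mul_le_mul_of_nonneg_right (by linarith) hPi0
  nlinarith [mul_le_mul_of_nonneg_right herrle hPi0]

end Pool.Agent.SmL.J
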