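import Pool.Agent.Lib.SmL.J.Loc

/-!
SMITH-L (odd prime `l`), block J: the symbols with respect to
distinct primes are independent and uniform (group theoretic form).
-/

set_option autoImplicit false

open Module Finset

namespace Pool.Agent.SmL.J

variable {l : ℕ} [Fact l.Prime] {A G V V1 Pl : Type} [CommRing A] [Group G] [AddCommGroup V]
  [Module A V] [DistribMulAction G V] [AddCommGroup V1] [Module (ZMod l) V1]
  {S : Sys l A G V V1 Pl} {X : PSys} {cd : CData S X}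

open Classical in
/-- The fixed space of a class. -/
noncomputable def FK (cd : CData S X) (t : cd.Kf) : Submodule (ZMod l) V1 :=
  if h : ∃ s, cd.kf s = t then Fix S h.choose else ⊥

theorem Fix_congr (hc : cd.Ok) {s s' : G} (h : cd.kf s = cd.kf s') : Fix S s = Fix S s' := by
  ext w
  rw [mem_Fix, mem_Fix, hc.kf_ac s s' h]

theorem FK_kf (hc : cd.Ok) (s : G) : FK cd (cd.kf s) = Fix S s := by
  have h : ∃ s', cd.kf s' = cd.kf s := ⟨s, rfl⟩
  rw [FK, dif_pos h]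
  exact Fix_congr hc h.choose_spec

theorem mem_GN {n : G} : n ∈ S.GN ↔ S.ac n = 1 := MonoidHom.mem_ker

theorem bexL_mul (hc : cd.Ok) (b : cd.Mk) (s t : G) {y : V1} (hy : y ∈ Fix S (cd.phx b)) :
    bexL hc b (s * t) y = bexL hc b s y + S.ac s (bexL hc b t y) := by
  rw [bexL_apply hc b _ hy, bexL_apply hc b _ hy, bexL_apply hc b _ hy]
  exact (bex_coc hc hy).2 s t

theorem mS_mul (hS : S.Ok) (hc : cd.Ok) (b : cd.Mk) {s : G} (t : G) {v : V1} (hv : v ∈ Fix S s)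
    {y : V1} (hy : y ∈ Fix S (cd.phx b)) :
    mS hc b (s * t) v y = mS hc b s v y + mS hc b t v y := by
  simp only [mS, LinearMap.compl₂_apply]
  rw [bexL_mul hc b s t hy, map_add, e_ac hS hv]

theorem mS_conj (hS : S.Ok) (hc : cd.Ok) (b : cd.Mk) {s n : G} (hn : n ∈ S.GN) {v : V1}
    (hv : v ∈ Fix S s) {y : V1} (hy : y ∈ Fix S (cd.phx b)) :
    mS hc b (n * s * n⁻¹) v y = mS hc b s v y := by
  rw [mS_apply hc b _ v hy, mS_apply hc b _ v hy,
    coc_conj (bex_coc hc hy).2, mem_GN.1 hn]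
  change S.e v (_ - (S.ac s _ - _)) = _
  rw [map_sub, e_sub hS hv, sub_zero]

/-- The restricted symbol. -/
noncomputable def sym (hc : cd.Ok) (t : cd.Kf) (b : cd.Mk) (s : G) :
    RF (FK cd t) (FK cd (cd.kf (cd.phx b))) × ZMod l :=
  ((mS hc b s).domRestrict₁₂ (FK cd t) (FK cd (cd.kf (cd.phx b))), cd.ch b.1 s)

theorem sym_mul (hS : S.Ok) (hc : cd.Ok) (b : cd.Mk) {s : G} (n : G) :
    sym hc (cd.kf s) b (s * n) = sym hc (cd.kf s) b s + sym hc (cd.kf s) b n := by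
  refine Prod.ext ?_ ((hc.ch_hom b.1).2 s n)
  ext v y
  have hv : (v : V1) ∈ Fix S s := by
    rw [← FK_kf hc]
    exact v.2
  have hy : (y : V1) ∈ Fix S (cd.phx b) := by
    rw [← FK_kf hc]
    exact y.2
  exact mS_mul hS hc b n hv hy

theorem sym_mul_GN (hc : cd.Ok) (t : cd.Kf) (b : cd.Mk) {s : G} (hs : s ∈ S.GN) (n : G) :
    sym hc t b (s * n) = sym hc t b s + sym hc t b n := by
  refine Prod.ext ?_ ((hc.ch_hom b.1).2 s n)
  ext v y
  have hy : (y : V1) ∈ Fix S (cd.phx b) := by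
    rw [← FK_kf hc]
    exact y.2
  change mS hc b (s * n) v y = mS hc b s v y + mS hc b n v y
  simp only [mS, LinearMap.compl₂_apply]
  rw [bexL_mul hc b s n hy, map_add, mem_GN.1 hs]
  rfl

theorem homG_one {c : G → ZMod l} (hc : ∀ s t, c (s * t) = c s + c t) : c 1 = 0 := by
  have := hc 1 1
  rw [one_mul] at this
  exact left_eq_add.mp this

theorem homG_conj {c : G → ZMod l} (hc : ∀ s t, c (s * t) = c s + c t) (g s : G) :
    c (g * s * g⁻¹) = c s := by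
  have h1 : c g + c g⁻¹ = 0 := by rw [← hc, mul_inv_cancel, homG_one hc]
  rw [hc, hc, add_right_comm, h1, zero_add]

theorem sym_eq_zero (hc : cd.Ok) (t : cd.Kf) (b : cd.Mk) {n : G}
    (h1 : ∀ y ∈ Fix S (cd.phx b), cd.bex b y n = 0) (h2 : cd.ch b.1 n = 0) :
    sym hc t b n = 0 := by
  refine Prod.ext ?_ h2
  ext v y
  have hy : (y : V1) ∈ Fix S (cd.phx b) := by
    rw [← FK_kf hc]
    exact y.2
  change mS hc b n v y = 0
  rw [mS_apply hc b n v hy, h1 _ hy, map_zero]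

theorem sym_one (hc : cd.Ok) (t : cd.Kf) (b : cd.Mk) : sym hc t b 1 = 0 :=
  sym_eq_zero hc t b (fun _ hy => Sys.cocG_one (bex_coc hc hy).2)
    (homG_one (hc.ch_hom b.1).2)

/-- The value at a conjugate of a tame generator. -/
theorem bex_sg (hS : S.Ok) (hc : cd.Ok) (b : cd.Mk) {y : V1} (hy : y ∈ Fix S (cd.phx b))
    (P : X.Pr) (g : G) :
    cd.bex b y (g * S.sg (cd.pl P) * g⁻¹) = S.ac g (cd.bex b y (S.sg (cd.pl P))) := by
  rw [coc_conj (bex_coc hc hy).2, Sys.ac_sg hS (hc.pl_good P)]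
  congr 1
  simp

variable {Geo : Subgroup G} {fr : G}

/-- **All symbols occur** in `N1 ⊓ GN ⊓ Geo`. -/
theorem exists_sym (hS : S.Ok) (hc : cd.Ok) (hG : CData.GeoOk (S := S) Geo fr) (N1 : Subgroup G)
    (hN1 : N1.Normal) (hsg : ∀ P, S.sg (cd.pl P) ∈ N1) {j : ℕ} (q : Fin j → cd.Mk)
    (hq : Function.Injective fun i => (q i).1) (t : cd.Kf)
    (w : (i : Fin j) → RF (FK cd t) (FK cd (cd.kf (cd.phx (q i)))) × ZMod l) :
    ∃ n, n ∈ N1 ∧ n ∈ S.GN ∧ n ∈ Geo ∧ ∀ i, sym hc t (q i) n = w i := by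
  classical
  let W : AddSubmonoid ((i : Fin j) → RF (FK cd t) (FK cd (cd.kf (cd.phx (q i)))) × ZMod l) :=
    { carrier := {w | ∃ n, n ∈ N1 ∧ n ∈ S.GN ∧ n ∈ Geo ∧ ∀ i, sym hc t (q i) n = w i}
      zero_mem' := ⟨1, one_mem _, one_mem _, one_mem _, fun i => sym_one hc t (q i)⟩
      add_mem' := by
        rintro w w' ⟨n, h1, h2, h3, h4⟩ ⟨n', h1', h2', h3', h4'⟩
        refine ⟨n * n', mul_mem h1 h1', mul_mem h2 h2', mul_mem h3 h3', fun i => ?_⟩
        rw [sym_mul_GN hc t _ h2, h4, h4']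
        rfl }
  have hsm : ∀ (c : ZMod l) x, x ∈ W → c • x ∈ W := by
    intro c x hx
    rw [← ZMod.natCast_zmod_val c, Nat.cast_smul_eq_nsmul]
    exact nsmul_mem hx _
  suffices h : ∀ w, w ∈ W from h w
  intro w
  rw [← Finset.univ_sum_single w]
  refine AddSubmonoid.sum_mem _ fun i _ => ?_
  obtain ⟨L, hL⟩ := exists_L hS (FK cd t) (FK cd (cd.kf (cd.phx (q i)))) (w i).1
  obtain ⟨T, hT1, hT2⟩ := hc.span (L ∘ₗ (S.ac (q i).2.1 : V1 →ₗ[ZMod l] V1)) (w i).2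
  have key : Pi.single i (w i) = ∑ g ∈ T.support, T g • (fun i' => sym hc t (q i')
      (g * S.sg (cd.pl (q i).1) * g⁻¹)) := by
    funext i'
    rw [Finset.sum_apply]
    by_cases hi : i' = i
    · subst hi
      rw [Pi.single_eq_same]
      refine Prod.ext ?_ ?_
      · rw [Prod.fst_sum]
        ext v y
        have hy : (y : V1) ∈ Fix S (cd.phx (q i')) := by
          rw [← FK_kf hc]
          exact y.2
        rw [LinearMap.sum_apply, LinearMap.sum_apply, ← hL]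
        have h1 : ∀ g : G, ((T g • fun k => sym hc t (q k)
            (g * S.sg (cd.pl (q i').1) * g⁻¹)) i').1 v y =
            S.e v (T g • S.ac g (S.ac (q i').2.1⁻¹ y)) := by
          intro g
          change T g • mS hc (q i') _ v y = _
          rw [mS_apply hc _ _ _ hy, bex_sg hS hc _ hy, bex_self hc hy, map_smul]
        rw [Finset.sum_congr rfl fun g _ => h1 g, ← map_sum, hT1]
        congr 1
        change L y = L (S.ac (q i').2.1 (S.ac (q i').2.1⁻¹ y))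
        rw [ac_inv_cancel]
      · rw [Prod.snd_sum]
        have h1 : ∀ g : G, ((T g • fun k => sym hc t (q k)
            (g * S.sg (cd.pl (q i').1) * g⁻¹)) i').2 = T g := by
          intro g
          change T g • cd.ch (q i').1 _ = T g
          rw [homG_conj (hc.ch_hom _).2, hc.ch_self, smul_eq_mul, mul_one]
        rw [Finset.sum_congr rfl fun g _ => h1 g, hT2]
    · rw [Pi.single_eq_of_ne hi]
      symm
      refine Finset.sum_eq_zero fun g _ => ?_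
      have hne : (q i).1 ≠ (q i').1 := fun h => hi (hq h.symm)
      change T g • sym hc t (q i') _ = 0
      refine smul_eq_zero_of_right _ (sym_eq_zero hc t _ (fun y hy => ?_) ?_)
      · rw [bex_sg hS hc _ hy, bex_unr hc hy hne, map_zero]
      · rw [homG_conj (hc.ch_hom _).2, hc.ch_unr _ _ hne]
  rw [key]
  refine AddSubmonoid.sum_mem _ fun g _ => hsm _ _ ?_
  exact ⟨_, hN1.conj_mem _ (hsg _) g,
    (MonoidHom.normal_ker S.ac).conj_mem _ (mem_GN.2 (Sys.ac_sg hS (hc.pl_good _))) g,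
    hG.normal.conj_mem _ (hG.sg_mem _) g, fun i' => rfl⟩

/-- **Uniformity** of the symbols on a coset of `Geo`. -/
theorem uni_card (hS : S.Ok) (hc : cd.Ok) (hG : CData.GeoOk (S := S) Geo fr) (N1 : Subgroup G)
    (hN1 : N1.Normal) (hsg : ∀ P, S.sg (cd.pl P) ∈ N1)
    (hN1k : ∀ s, ∀ n ∈ N1, cd.kf (s * n) = cd.kf s) {j : ℕ} (q : Fin j → cd.Mk)
    (hq : Function.Injective fun i => (q i).1) (t : cd.Kf) (N : Subgroup G) (hN : N.Normal)
    (hNN1 : N ≤ N1) (hNG : N ≤ S.GN)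
    (hNb : ∀ i, ∀ n ∈ N, ∀ y ∈ Fix S (cd.phx (q i)), cd.bex (q i) y n = 0)
    (hNc : ∀ i, ∀ n ∈ N, cd.ch (q i).1 n = 0)
    (T : Finset G) (hT : ∀ τ ∈ T, τ ∈ Geo) (hT' : ∀ g ∈ Geo, ∃! τ, τ ∈ T ∧ τ⁻¹ * g ∈ N)
    (g f : G) (w : (i : Fin j) → RF (FK cd t) (FK cd (cd.kf (cd.phx (q i)))) × ZMod l) :
    Nat.card {τ : G // τ ∈ T ∧ cd.kf (g * (f * τ) * g⁻¹) = t ∧
      ∀ i, sym hc t (q i) (g * (f * τ) * g⁻¹) = w i} *
      Nat.card ((i : Fin j) → RF (FK cd t) (FK cd (cd.kf (cd.phx (q i)))) × ZMod l) ≤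
    Nat.card {τ : G // τ ∈ T ∧ cd.kf (g * (f * τ) * g⁻¹) = t} := by
  classical
  rw [← Nat.card_prod]
  choose nn hn1 hn2 hn3 hn4 using exists_sym hS hc hG N1 hN1 hsg q hq t
  have hrep : ∀ (τ : G) (w' : (i : Fin j) → RF (FK cd t) (FK cd (cd.kf (cd.phx (q i)))) × ZMod l),
      τ ∈ T → ∃ τ', τ' ∈ T ∧ τ'⁻¹ * (τ * (g⁻¹ * nn w' * g)) ∈ N := by
    intro τ w' hτ
    have h1 : g⁻¹ * nn w' * g ∈ Geo := by
      have := hG.normal.conj_mem _ (hn3 w') g⁻¹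
      rwa [inv_inv] at this
    exact (hT' _ (mul_mem (hT τ hτ) h1)).exists
  choose rep hr1 hr2 using hrep
  have hgN : ∀ ν ∈ N, g * ν * g⁻¹ ∈ N := fun ν hν => hN.conj_mem _ hν g
  -- the new element
  have hx : ∀ (τ : G) (w' : (i : Fin j) → RF (FK cd t) (FK cd (cd.kf (cd.phx (q i)))) × ZMod l)
      (hτ : τ ∈ T), ∃ ν ∈ N, rep τ w' hτ = τ * (g⁻¹ * nn w' * g) * ν := by
    intro τ w' hτ
    refine ⟨((rep τ w' hτ)⁻¹ * (τ * (g⁻¹ * nn w' * g)))⁻¹, inv_mem (hr2 τ w' hτ), ?_⟩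
    group
  have hx2 : ∀ (τ : G) (w' : (i : Fin j) → RF (FK cd t) (FK cd (cd.kf (cd.phx (q i)))) × ZMod l)
      (hτ : τ ∈ T), ∃ ν ∈ N, g * (f * rep τ w' hτ) * g⁻¹ =
        g * (f * τ) * g⁻¹ * (nn w' * ν) := by
    intro τ w' hτ
    obtain ⟨ν, hν, he⟩ := hx τ w' hτ
    refine ⟨g * ν * g⁻¹, hgN ν hν, ?_⟩
    rw [he]
    group
  have hkf : ∀ (τ : G) (w' : (i : Fin j) → RF (FK cd t) (FK cd (cd.kf (cd.phx (q i)))) × ZMod l)
      (hτ : τ ∈ T), cd.kf (g * (f * rep τ w' hτ) * g⁻¹) = cd.kf (g * (f * τ) * g⁻¹) := by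
    intro τ w' hτ
    obtain ⟨ν, hν, he⟩ := hx2 τ w' hτ
    rw [he, hN1k _ _ (mul_mem (hn1 w') (hNN1 hν))]
  have hsym : ∀ (τ : G) (w' : (i : Fin j) → RF (FK cd t) (FK cd (cd.kf (cd.phx (q i)))) × ZMod l)
      (hτ : τ ∈ T) (_ : cd.kf (g * (f * τ) * g⁻¹) = t) (i : Fin j),
      sym hc t (q i) (g * (f * rep τ w' hτ) * g⁻¹) =
        sym hc t (q i) (g * (f * τ) * g⁻¹) + w' i := by
    intro τ w' hτ ht i
    obtain ⟨ν, hν, he⟩ := hx2 τ w' hτ
    rw [he]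
    have h1 := sym_mul hS hc (q i) (s := g * (f * τ) * g⁻¹) (nn w' * ν)
    rw [ht] at h1
    rw [h1, sym_mul_GN hc t _ (hn2 w'), hn4 w' i, sym_eq_zero hc t (q i) (hNb i ν hν)
      (hNc i ν hν), add_zero]
  have hfT : Finite {τ : G // τ ∈ T ∧ cd.kf (g * (f * τ) * g⁻¹) = t} :=
    Finite.of_injective (fun τ : {τ : G // τ ∈ T ∧ cd.kf (g * (f * τ) * g⁻¹) = t} =>
      (⟨τ.1, τ.2.1⟩ : T)) (by
        intro a b h
        exact Subtype.ext (congrArg (fun s : T => (s : G)) h))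
  refine Nat.card_le_card_of_injective (fun x : {τ : G // τ ∈ T ∧ cd.kf (g * (f * τ) * g⁻¹) = t ∧
      ∀ i, sym hc t (q i) (g * (f * τ) * g⁻¹) = w i} ×
      ((i : Fin j) → RF (FK cd t) (FK cd (cd.kf (cd.phx (q i)))) × ZMod l) =>
    (⟨rep x.1.1 x.2 x.1.2.1, hr1 _ _ _, (hkf _ _ _).trans x.1.2.2.1⟩ :
      {τ : G // τ ∈ T ∧ cd.kf (g * (f * τ) * g⁻¹) = t})) ?_
  rintro ⟨⟨τ, hτ, hk, hs⟩, w1⟩ ⟨⟨τ', hτ', hk', hs'⟩, w2⟩ h
  have h1 : rep τ w1 hτ = rep τ' w2 hτ' :=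
    congrArg (fun s : {τ : G // τ ∈ T ∧ cd.kf (g * (f * τ) * g⁻¹) = t} => (s : G)) h
  have h2 : w1 = w2 := by
    funext i
    have h3 := hsym τ w1 hτ hk i
    have h4 := hsym τ' w2 hτ' hk' i
    rw [h1, h4, hs i, hs' i] at h3
    refine (Prod.ext ?_ (add_left_cancel (congrArg Prod.snd h3))).symm
    ext v y
    exact add_left_cancel (LinearMap.congr_fun (LinearMap.congr_fun (congrArg Prod.fst h3) v) y)
  subst h2
  have h5 : τ = τ' := by
    obtain ⟨ν, hν, he⟩ := hx τ w1 hτ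
    obtain ⟨ν', hν', he'⟩ := hx τ' w1 hτ'
    have h6 : τ⁻¹ * τ' ∈ N := by
      have h7 : τ⁻¹ * τ' = (g⁻¹ * nn w1 * g) * (ν * ν'⁻¹) * (g⁻¹ * nn w1 * g)⁻¹ := by
        rw [he, he'] at h1
        have h8 : τ' = τ * (g⁻¹ * nn w1 * g) * ν * (ν'⁻¹ * (g⁻¹ * nn w1 * g)⁻¹) := by
          rw [h1]
          group
        rw [h8]
        group
      rw [h7]
      exact hN.conj_mem _ (mul_mem hν (inv_mem hν')) _
    have h9 : τ'⁻¹ * τ' ∈ N := by
      rw [inv_mul_cancel]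
      exact one_mem _
    exact (hT' τ' (hT _ hτ')).unique ⟨hτ, h6⟩ ⟨hτ', h9⟩
  subst h5
  rfl

end Pool.Agent.SmL.J
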