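import Pool.Agent.Lib.SmL.J.Inst

/-!
SMITH-L (odd prime `l`), block J: the weights `GW` of a grid.
-/

set_option autoImplicit false

open Module Finset

namespace Pool.Agent.SmL.J

variable {l : ℕ} [Fact l.Prime] {A G V V1 Pl : Type} [CommRing A] [Group G] [AddCommGroup V]
  [Module A V] [DistribMulAction G V] [AddCommGroup V1] [Module (ZMod l) V1]
  {S : Sys l A G V V1 Pl} {X : PSys} {cd : CData S X}

/-- Local duality: the perpendicular of the fixed space. -/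
theorem mem_range_of_perp (h : S.Ok) (s : G) (w : V1) (hw : ∀ v ∈ Fix S s, S.e v w = 0) :
    ∃ z, w = S.ac s z - z := by
  have := h.fin1
  let A : V1 →ₗ[ZMod l] V1 := (S.ac s : V1 →ₗ[ZMod l] V1) - LinearMap.id
  have hA : ∀ z, A z = S.ac s z - z := fun z => rfl
  let B : V1 →ₗ[ZMod l] (Fix S s →ₗ[ZMod l] ZMod l) := (S.e.domRestrict (Fix S s)).flip
  have hB : ∀ (z : V1) (v : Fix S s), B z v = S.e v z := fun z v => rfl
  have hle : LinearMap.range A ≤ LinearMap.ker B := by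
    rintro _ ⟨z, rfl⟩
    rw [LinearMap.mem_ker]
    ext v
    rw [hB, hA, e_sub h v.2]
    rfl
  have hsurj : Function.Surjective B := by
    intro f
    obtain ⟨g, hg⟩ := LinearMap.exists_extend f
    have hinj : Function.Injective S.e.flip := by
      rw [← LinearMap.ker_eq_bot, LinearMap.ker_eq_bot']
      intro w hw
      refine e_nondeg' h w fun w' => ?_
      have := LinearMap.congr_fun hw w'
      rwa [LinearMap.flip_apply] at this
    let E := LinearMap.linearEquivOfInjective S.e.flip hinj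
      (Subspace.dual_finrank_eq (K := ZMod l) (V := V1)).symm
    refine ⟨E.symm g, ?_⟩
    ext v
    rw [hB]
    have h1 : S.e.flip (E.symm g) = g := E.apply_symm_apply g
    have h2 : S.e v (E.symm g) = g v := LinearMap.congr_fun h1 (v : V1)
    rw [h2]
    exact LinearMap.congr_fun hg v
  have hkerA : LinearMap.ker A = Fix S s := by
    ext z
    rw [LinearMap.mem_ker, hA, mem_Fix, sub_eq_zero]
  have h1 := LinearMap.finrank_range_add_finrank_ker A
  have h2 := LinearMap.finrank_range_add_finrank_ker B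
  rw [LinearMap.range_eq_top.2 hsurj, finrank_top] at h2
  have h3 : finrank (ZMod l) (Fix S s →ₗ[ZMod l] ZMod l) = finrank (ZMod l) (Fix S s) :=
    Subspace.dual_finrank_eq (K := ZMod l) (V := Fix S s)
  rw [hkerA] at h1
  rw [h3] at h2
  have h4 : LinearMap.range A = LinearMap.ker B :=
    Submodule.eq_of_le_of_finrank_eq hle (by omega)
  have h5 : w ∈ LinearMap.range A := by
    rw [h4, LinearMap.mem_ker]
    ext v
    rw [hB, hw v v.2]
    rfl
  obtain ⟨z, hz⟩ := h5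
  exact ⟨z, hz.symm⟩

variable {Geo : Subgroup G} {fr : G} {q a C : ℕ} {N1 : Subgroup G}

/-- Split classes. -/
def spK (cd : CData S X) (t : cd.Kf) : Prop := ∃ s, cd.kf s = t ∧ s ∈ S.GN

theorem FK_split (hc : cd.Ok) {t : cd.Kf} (ht : spK cd t) : FK cd t = ⊤ := by
  obtain ⟨s, rfl, hs⟩ := ht
  rw [FK_kf hc, eq_top_iff]
  intro w _
  rw [mem_Fix, mem_GN.1 hs]
  rfl

theorem split_of_spK (hc : cd.Ok) {s : G} (hs : spK cd (cd.kf s)) : s ∈ S.GN := by
  obtain ⟨s', hk, hs'⟩ := hs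
  rw [mem_GN, ← hc.kf_ac s' s hk]
  exact mem_GN.1 hs'

/-- The codes of the coboundaries. -/
def Kb (cd : CData S X) : Submodule (ZMod l) (Fin cd.h → ZMod l) := LinearMap.range cd.kb

/-- An unramified cocycle which is not a coboundary is locally nontrivial. -/
theorem exists_znd (hS : S.Ok) (hc : cd.Ok) (hG : CData.GeoOk (S := S) Geo fr) {d : ℕ}
    (hd : fr ^ d ∈ S.GN) (z : Fin cd.h → ZMod l) (hz : z ∉ Kb cd) :
    ∃ g0 ∈ Geo, ∃ v ∈ FK cd (cd.kf (fr ^ d * g0)), zzS cd (cd.kf (fr ^ d * g0)) v z ≠ 0 := by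
  by_contra hcon
  push Not at hcon
  have hcoc := hb_coc hc z
  have hfr := mem_GN.1 hd
  have h1 : ∀ g0 ∈ Geo, ∃ w, cd.hb z (fr ^ d * g0) = S.ac g0 w - w := by
    intro g0 hg0
    obtain ⟨w, hw⟩ := mem_range_of_perp hS (fr ^ d * g0) (cd.hb z (fr ^ d * g0)) (fun v hv => by
      rw [← zzS_apply hS hc hv]
      exact hcon g0 hg0 v (by rw [FK_kf hc]; exact hv))
    refine ⟨w, ?_⟩
    rw [hw, ac_mul, hfr]
    rfl
  have h2 : cd.hb z (fr ^ d) = 0 := by
    obtain ⟨w, hw⟩ := h1 1 (one_mem _)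
    rw [mul_one, map_one] at hw
    rw [hw]
    exact sub_self w
  have h3 : ∀ g0, cd.hb z (fr ^ d * g0) = cd.hb z g0 := by
    intro g0
    rw [hcoc.2, h2, hfr, zero_add]
    rfl
  have h4 : ∀ n ∈ S.GN, n ∈ Geo → cd.hb z n = 0 := by
    intro n hn hnG
    obtain ⟨w, hw⟩ := h1 n hnG
    rw [h3, mem_GN.1 hn] at hw
    rw [hw]
    exact sub_self w
  have h5 : ∀ n ∈ S.GN, cd.hb z n = 0 := by
    intro n hn
    refine hc.nofix _ fun g => ?_
    have hGN : S.GN.Normal := MonoidHom.normal_ker S.ac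
    have h6 : g * n * g⁻¹ * n⁻¹ ∈ Geo := by
      refine hG.comm ?_
      have := Subgroup.commutator_mem_commutator (Subgroup.mem_top g) (Subgroup.mem_top n)
      rw [commutatorElement_def] at this
      rw [commutator_def]
      exact this
    have h7 : g * n * g⁻¹ * n⁻¹ ∈ S.GN := mul_mem (hGN.conj_mem n hn g) (inv_mem hn)
    have h8 : cd.hb z (g * n * g⁻¹) = cd.hb z n := by
      have h9 : g * n * g⁻¹ = (g * n * g⁻¹ * n⁻¹) * n := by group
      rw [h9, hcoc.2, h4 _ h7 h6, mem_GN.1 h7, zero_add]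
      rfl
    have h10 : cd.hb z (g * n * g⁻¹) = S.ac g (cd.hb z n) := by
      rw [coc_conj hcoc.2, mem_GN.1 hn]
      simp
    exact h10.symm.trans h8
  obtain ⟨w, hw⟩ := hG.znd _ hcoc h5 (fun s hs => by
    obtain ⟨w, hw⟩ := h1 s hs
    exact ⟨w, by rw [← h3, hw]⟩)
  refine hz ⟨w, hc.hb_inj ?_⟩
  funext s
  rw [hc.kb_eq, hw]

theorem card_MkP_sum (hX : X.Ok q) (hc : cd.Ok) [Fintype cd.Kf] (d : ℕ) (Θ : cd.Kf → Prop)
    [DecidablePred Θ] :
    (∑ t ∈ univ.filter Θ, (Nat.card (MkP cd d (fun s => cd.kf s = t)) : ℝ)) =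
      Nat.card (MkP cd d (fun s => Θ (cd.kf s))) := by
  classical
  have hfin : ∀ Pr : G → Prop, Finite (MkP cd d Pr) := fun Pr => by
    have := (finite_deg cd hX d).to_subtype
    exact Finite.of_injective (fun x : MkP cd d Pr =>
      (⟨x.1, x.2.1⟩ : {x : cd.Mk | X.deg x.1 = d})) (by
        intro x y h
        exact Subtype.ext (congrArg (fun s : {x : cd.Mk | X.deg x.1 = d} => (s : cd.Mk)) h))
  have h1 : Nat.card (MkP cd d (fun s => Θ (cd.kf s))) =
      Nat.card (Σ t : {t // t ∈ univ.filter Θ}, MkP cd d (fun s => cd.kf s = t.1)) := by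
    refine Nat.card_congr ⟨fun x => ⟨⟨cd.kf (cd.phx x.1), by simpa using x.2.2⟩,
      ⟨x.1, x.2.1, rfl⟩⟩, fun y => ⟨y.2.1, y.2.2.1, ?_⟩, fun x => rfl, ?_⟩
    · change Θ (cd.kf (cd.phx y.2.1))
      have h2 : cd.kf (cd.phx y.2.1) = y.1.1 := y.2.2.2
      rw [h2]
      exact (Finset.mem_filter.1 y.1.2).2
    · rintro ⟨⟨t, ht⟩, ⟨x, hx, hk⟩⟩
      have hk' : cd.kf (cd.phx x) = t := hk
      subst hk'
      rfl
  rw [h1, Nat.card_sigma]
  push_cast
  rw [Finset.sum_coe_sort (univ.filter Θ)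
    (fun t => (Nat.card (MkP cd d (fun s => cd.kf s = t)) : ℝ))]

/-- The smallness of the error terms. -/
def Sm (cd : CData S X) (q a C : ℕ) (N1 : Subgroup G) {n : ℕ} (g : Grid cd n) (δ : ℝ) : Prop :=
  ∀ j, g.ns ≤ j → j < g.M →
    Nat.card cd.Kf * er cd q a C N1 n j (g.dd j) ≤ δ * (cd.R.card * Nat.card (X.Of (g.dd j))) ∧
    cd.R.card * (C * (N1.index : ℝ) ^ a * √((q : ℝ) ^ (g.dd j))) ≤
      Nat.card (X.Of (g.dd j)) / (2 * N1.index)

/-- The good positions of a grid. -/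
def gA {n : ℕ} (g : Grid cd n) (m0 : ℕ) : Finset (Fin g.M) :=
  Finset.univ.filter fun j => g.ns ≤ j ∧ m0 ∣ g.dd j

open Classical in
/-- The weights of a grid. -/
theorem gw (H : Hyp cd Geo fr q a C N1) [Fintype cd.Kf] {n : ℕ} (g : Grid cd n)
    (u : ℕ → ZMod l) {δ : ℝ}
    (hδ : 0 ≤ δ) (hsm : Sm cd q a C N1 g δ) {m0 : ℕ} (hm0 : fr ^ m0 ∈ S.GN) :
    (gd H g u).GW (gA g m0) (spK cd) (Kb cd) (1 / (2 * (cd.R.card * N1.index))) δ := by
  have hR : (1 : ℝ) ≤ cd.R.card := by exact_mod_cast Finset.card_pos.2 (R_nonempty H.hc)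
  have hI : (1 : ℝ) ≤ N1.index := by exact_mod_cast Nat.pos_of_ne_zero H.hi
  have hcX : ∀ j, g.ns ≤ j → j < g.M →
      (Nat.card (g.Xs j) : ℝ) = cd.R.card * Nat.card (X.Of (g.dd j)) := by
    intro j hj hjM
    rw [g.large j hj hjM]
    have e : {x : cd.Mk | X.deg x.1 = g.dd j} ≃ X.Of (g.dd j) × {g : G // g ∈ cd.R} :=
      ⟨fun x => (⟨x.1.1, x.2⟩, x.1.2), fun y => ⟨(y.1.1, y.2), y.1.2⟩, fun x => rfl, fun y => rfl⟩
    rw [Nat.card_congr e, Nat.card_prod, Nat.card_eq_fintype_card (α := {g : G // g ∈ cd.R}),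
      Fintype.card_coe]
    push_cast
    ring
  have hlow : ∀ j, g.ns ≤ j → j < g.M → ∀ (Θ : cd.Kf → Prop), ∀ g0 ∈ Geo,
      Θ (cd.kf (fr ^ (g.dd j) * g0)) → 1 / (2 * (cd.R.card * N1.index)) * (Nat.card (g.Xs j) : ℝ) ≤
      ∑ t ∈ univ.filter Θ, (gd H g u).c j t := by
    intro j hj hjM Θ g0 hg0 hΘ
    obtain ⟨E, hE⟩ := exists_E H.hX (g.dd j)
    have hEc : (E.card : ℝ) = Nat.card (X.Of (g.dd j)) := by
      congr 1
      rw [← Nat.subtype_card E hE]
    have h1 := low_main H.hc H.hG H.hS H.hC H.hN H.hi H.hsg H.hk (g.pos j hj hjM) hE Θ hg0 hΘ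
    have h2 := (hsm j hj hjM).2
    have h3 : ∑ t ∈ univ.filter Θ, (Nat.card (MkP cd (g.dd j) (fun s => cd.kf s = t)) : ℝ) ≤
        ∑ t ∈ univ.filter Θ, (gd H g u).c j t := by
      refine Finset.sum_le_sum fun t _ => ?_
      exact le_add_of_nonneg_right (er_nonneg _ _ _ _ _ _ _ _)
    refine le_trans ?_ h3
    rw [card_MkP_sum H.hX H.hc, hcX j hj hjM]
    refine le_trans ?_ h1
    rw [hEc]
    have h4 : 1 / (2 * (cd.R.card * N1.index : ℝ)) * (cd.R.card * Nat.card (X.Of (g.dd j))) =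
        Nat.card (X.Of (g.dd j)) / (2 * N1.index) := by
      have hR' : (cd.R.card : ℝ) ≠ 0 := by linarith
      have hI' : (N1.index : ℝ) ≠ 0 := by linarith
      generalize (Nat.card (X.Of (g.dd j)) : ℝ) = y
      field_simp
    have h5 : (Nat.card (X.Of (g.dd j)) : ℝ) / N1.index =
        2 * (Nat.card (X.Of (g.dd j)) / (2 * N1.index)) := by
      have hI' : (N1.index : ℝ) ≠ 0 := by linarith
      generalize (Nat.card (X.Of (g.dd j)) : ℝ) = y
      field_simp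
    rw [h4, h5]
    linarith
  have hgA : ∀ j ∈ gA g m0, g.ns ≤ j ∧ fr ^ (g.dd j) ∈ S.GN := by
    intro j hj
    obtain ⟨h1, k, hk⟩ := (Finset.mem_filter.1 hj).2
    refine ⟨h1, ?_⟩
    rw [hk, pow_mul]
    exact pow_mem hm0 k
  refine ⟨g.small, fun j hj => (hgA j hj).1, fun t ht => FK_split H.hc ht, by positivity, ?_, hδ,
    fun j hj hjM => ?_, fun j hj => ?_, fun j hj z hz => ?_⟩
  · rw [div_le_one (by positivity)]
    nlinarith
  · change ∑ t, ((Nat.card (MkP cd (g.dd j) (fun s => cd.kf s = t)) : ℝ) +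
      er cd q a C N1 n j (g.dd j)) ≤ (1 + δ) * Nat.card (g.Xs j)
    rw [Finset.sum_add_distrib, Finset.sum_const, Finset.card_univ, nsmul_eq_mul,
      ← Nat.card_eq_fintype_card]
    have h1 := (hsm j hj hjM).1
    have h2 : ∑ t, (Nat.card (MkP cd (g.dd j) (fun s => cd.kf s = t)) : ℝ) =
        Nat.card (g.Xs j) := by
      have h3 := card_MkP_sum H.hX H.hc (g.dd j) (fun _ => True)
      rw [Finset.filter_true_of_mem (fun _ _ => trivial)] at h3
      rw [h3, g.large j hj hjM]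
      congr 1
      exact Nat.card_congr (Equiv.subtypeEquivRight fun x => by simp)
    rw [h2, hcX j hj hjM]
    rw [← hcX j hj hjM] at h1 ⊢
    linarith
  · exact hlow j (hgA j hj).1 j.2 (spK cd) 1 (one_mem _) ⟨_, rfl, by
      rw [mul_one]
      exact (hgA j hj).2⟩
  · obtain ⟨g0, hg0, hv⟩ := exists_znd H.hS H.hc H.hG (hgA j hj).2 z hz
    exact hlow j (hgA j hj).1 j.2 (fun t => ∃ v ∈ FK cd t, zzS cd t v z ≠ 0) g0 hg0 hv

end Pool.Agent.SmL.J
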